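import Pool.Agent.Lib.MP_660a49_lc.L2

/-!
# Countable beta-models omitting a set

Given a parameter `P` and a set `S` which is not `Σ^1_1` definable from `P` we build a family `𝒮` of
sets with `P ∈ 𝒮`, `S ∉ 𝒮` which is correct for `Σ^1_1` statements, by a Henkin construction.
-/

namespace Pool.Agent.Lib.MP_660a49_lc

/-! ### Semantics of derived connectives -/

section derived

variable {M : Model} {φ ψ : Formula} {v : ℕ → M.Num} {V : ℕ → Set M.Num}

theorem sat_imp : Sat M (.fimp φ ψ) v V ↔ (Sat M φ v V → Sat M ψ v V) := by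
  simp only [Formula.fimp, Sat]
  tauto

theorem sat_iff : Sat M (.fiff φ ψ) v V ↔ (Sat M φ v V ↔ Sat M ψ v V) := by
  simp only [Formula.fiff, Formula.fimp, Sat]
  tauto

theorem sat_exN {x : ℕ} : Sat M (.fexN x φ) v V ↔ ∃ a, Sat M φ (Function.update v x a) V := by
  simp only [Formula.fexN, Sat]
  push Not
  rfl

theorem sat_exS {X : ℕ} :
    Sat M (.fexS X φ) v V ↔ ∃ A ∈ M.Sets, Sat M φ v (Function.update V X A) := by
  simp only [Formula.fexS, Sat]
  push Not
  rfl

end derived

/-! ### Substitution -/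

theorem eval_subst (M : Model) (x : ℕ) (r : Term) (v : ℕ → M.Num) (t : Term) :
    (Term.tsubst x r t).teval M v = t.teval M (Function.update v x (r.teval M v)) := by
  induction t with
  | tvar y =>
    by_cases h : y = x
    · subst h
      simp [Term.tsubst, Term.teval]
    · simp [Term.tsubst, Term.teval, h]
  | tzero => rfl
  | tone => rfl
  | tadd s t ihs iht => simp only [Term.tsubst, Term.teval, ihs, iht]
  | tmul s t ihs iht => simp only [Term.tsubst, Term.teval, ihs, iht]

theorem eval_update_of_not_occurs (M : Model) {x : ℕ} {a : M.Num} (v : ℕ → M.Num) {t : Term}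
    (h : ¬ t.Occurs x) : t.teval M (Function.update v x a) = t.teval M v := by
  induction t with
  | tvar y =>
    have : y ≠ x := fun h' => h h'.symm
    simp [Term.teval, this]
  | tzero => rfl
  | tone => rfl
  | tadd s t ihs iht =>
    simp only [Term.Occurs, not_or] at h
    simp only [Term.teval, ihs h.1, iht h.2]
  | tmul s t ihs iht =>
    simp only [Term.Occurs, not_or] at h
    simp only [Term.teval, ihs h.1, iht h.2]

/-- The substitution lemma for terms whose only variable is the substituted one. -/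
theorem sat_subst (M : Model) (x : ℕ) (r : Term) (hr : ∀ y, y ≠ x → ¬ r.Occurs y) (φ : Formula)
    (v : ℕ → M.Num) (V : ℕ → Set M.Num) :
    Sat M (fsubst x r φ) v V ↔ Sat M φ (Function.update v x (r.teval M v)) V := by
  induction φ generalizing v V with
  | feq s t => simp only [fsubst, Sat, eval_subst]
  | flt s t => simp only [fsubst, Sat, eval_subst]
  | fmem t X => simp only [fsubst, Sat, eval_subst]
  | fneg φ ih => simp only [fsubst, Sat, ih]
  | fand φ ψ ih1 ih2 => simp only [fsubst, Sat, ih1, ih2]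
  | fallN y φ ih =>
    by_cases h : y = x
    · subst h
      simp only [fsubst, if_true, Sat, Function.update_idem]
    · simp only [fsubst, if_neg h, Sat, ih]
      refine forall_congr' fun a => ?_
      rw [eval_update_of_not_occurs M v (hr y h), Function.update_comm h]
  | fallS X φ ih => simp only [fsubst, Sat, ih]

/-! ### Locality -/

/-- A bound for the variables of a term. -/
def Term.bd : Term → ℕ
  | .tvar x => x + 1
  | .tzero => 0
  | .tone => 0
  | .tadd s t => max s.bd t.bd
  | .tmul s t => max s.bd t.bd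

/-- A bound for the variables of a formula. -/
def bd : Formula → ℕ
  | .feq s t => max s.bd t.bd
  | .flt s t => max s.bd t.bd
  | .fmem t X => max t.bd (X + 1)
  | .fneg φ => bd φ
  | .fand φ ψ => max (bd φ) (bd ψ)
  | .fallN x φ => max (x + 1) (bd φ)
  | .fallS X φ => max (X + 1) (bd φ)

theorem sat_update_of_not_freeS (M : Model) {X : ℕ} {A : Set M.Num} (φ : Formula)
    (h : ¬ FreeS X φ) (v : ℕ → M.Num) (V : ℕ → Set M.Num) :
    Sat M φ v (Function.update V X A) ↔ Sat M φ v V := by
  induction φ generalizing v V with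
  | feq s t => rfl
  | flt s t => rfl
  | fmem t Y =>
    have : Y ≠ X := fun h' => h h'.symm
    simp [Sat, this]
  | fneg φ ih => simp only [Sat, ih h]
  | fand φ ψ ih1 ih2 =>
    simp only [FreeS, not_or] at h
    simp only [Sat, ih1 h.1, ih2 h.2]
  | fallN y φ ih => simp only [Sat, ih h]
  | fallS Y φ ih =>
    simp only [Sat]
    refine forall_congr' fun B => forall_congr' fun _ => ?_
    by_cases hXY : X = Y
    · subst hXY
      rw [Function.update_idem]
    · have h' : ¬ FreeS X φ := fun hf => h ⟨hXY, hf⟩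
      rw [Function.update_comm hXY, ih h']

/-! ### Standard models -/

/-- Value of a term in the natural numbers. -/
def evN (v : ℕ → ℕ) : Term → ℕ
  | .tvar x => v x
  | .tzero => 0
  | .tone => 1
  | .tadd s t => evN v s + evN v t
  | .tmul s t => evN v s * evN v t

/-- Truth in the full standard model. -/
def SatN : Formula → (ℕ → ℕ) → (ℕ → Set ℕ) → Prop
  | .feq s t, v, _ => evN v s = evN v t
  | .flt s t, v, _ => evN v s < evN v t
  | .fmem t X, v, V => evN v t ∈ V X
  | .fneg φ, v, V => ¬ SatN φ v V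
  | .fand φ ψ, v, V => SatN φ v V ∧ SatN ψ v V
  | .fallN x φ, v, V => ∀ a : ℕ, SatN φ (Function.update v x a) V
  | .fallS X φ, v, V => ∀ A : Set ℕ, SatN φ v (Function.update V X A)

theorem eval_omega {𝒮 : Set (Set ℕ)} {h : 𝒮.Nonempty} (v : ℕ → ℕ) (t : Term) :
    Term.teval (omega 𝒮 h) v t = evN v t := by
  induction t with
  | tvar x => rfl
  | tzero => rfl
  | tone => rfl
  | tadd s t ihs iht =>
    simp only [Term.teval, evN, ihs, iht]
  | tmul s t ihs iht =>
    simp only [Term.teval, evN, ihs, iht]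

theorem sat_omega {𝒮 : Set (Set ℕ)} {h : 𝒮.Nonempty} {φ : Formula} (hφ : Arithmetical φ)
    (v : ℕ → ℕ) (V : ℕ → Set ℕ) : Sat (omega 𝒮 h) φ v V ↔ SatN φ v V := by
  induction φ generalizing v with
  | feq s t =>
    simp only [Sat, SatN, eval_omega]
  | flt s t =>
    simp only [Sat, SatN, eval_omega]
  | fmem t X =>
    simp only [Sat, SatN, eval_omega]
  | fneg φ ih => exact not_congr (ih hφ v)
  | fand φ ψ ih1 ih2 => exact and_congr (ih1 hφ.1 v) (ih2 hφ.2 v)
  | fallN x φ ih => exact forall_congr' fun a => ih hφ _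
  | fallS X φ ih => exact hφ.elim

theorem evN_congr {v v' : ℕ → ℕ} {t : Term} (h : ∀ i < t.bd, v i = v' i) :
    evN v t = evN v' t := by
  induction t with
  | tvar x => exact h x (Nat.lt_succ_self x)
  | tzero => rfl
  | tone => rfl
  | tadd s t ihs iht =>
    simp only [evN]
    rw [ihs fun i hi => h i (lt_of_lt_of_le hi (le_max_left _ _)),
      iht fun i hi => h i (lt_of_lt_of_le hi (le_max_right _ _))]
  | tmul s t ihs iht =>
    simp only [evN]
    rw [ihs fun i hi => h i (lt_of_lt_of_le hi (le_max_left _ _)),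
      iht fun i hi => h i (lt_of_lt_of_le hi (le_max_right _ _))]

theorem satN_congr {φ : Formula} {v v' : ℕ → ℕ} {V V' : ℕ → Set ℕ}
    (h : ∀ i < bd φ, v i = v' i) (hV : ∀ i < bd φ, V i = V' i) : SatN φ v V ↔ SatN φ v' V' := by
  induction φ generalizing v v' V V' with
  | feq s t =>
    simp only [SatN]
    rw [evN_congr (t := s) fun i hi => h i (lt_of_lt_of_le hi (le_max_left _ _)),
      evN_congr (t := t) fun i hi => h i (lt_of_lt_of_le hi (le_max_right _ _))]
  | flt s t =>
    simp only [SatN]
    rw [evN_congr (t := s) fun i hi => h i (lt_of_lt_of_le hi (le_max_left _ _)),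
      evN_congr (t := t) fun i hi => h i (lt_of_lt_of_le hi (le_max_right _ _))]
  | fmem t X =>
    simp only [SatN]
    rw [evN_congr (t := t) fun i hi => h i (lt_of_lt_of_le hi (le_max_left _ _)),
      hV X (lt_of_lt_of_le (Nat.lt_succ_self X) (le_max_right _ _))]
  | fneg φ ih => exact not_congr (ih h hV)
  | fand φ ψ ih1 ih2 =>
    exact and_congr
      (ih1 (fun i hi => h i (lt_of_lt_of_le hi (le_max_left _ _)))
        (fun i hi => hV i (lt_of_lt_of_le hi (le_max_left _ _))))
      (ih2 (fun i hi => h i (lt_of_lt_of_le hi (le_max_right _ _)))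
        (fun i hi => hV i (lt_of_lt_of_le hi (le_max_right _ _))))
  | fallN x φ ih =>
    refine forall_congr' fun a => ih ?_ ?_
    · intro i hi
      by_cases hx : i = x
      · subst hx
        simp
      · rw [Function.update_of_ne hx, Function.update_of_ne hx]
        exact h i (lt_of_lt_of_le hi (le_max_right _ _))
    · exact fun i hi => hV i (lt_of_lt_of_le hi (le_max_right _ _))
  | fallS X φ ih =>
    refine forall_congr' fun A => ih ?_ ?_
    · exact fun i hi => h i (lt_of_lt_of_le hi (le_max_right _ _))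
    · intro i hi
      by_cases hx : i = X
      · subst hx
        simp
      · rw [Function.update_of_ne hx, Function.update_of_ne hx]
        exact hV i (lt_of_lt_of_le hi (le_max_right _ _))

/-- Renaming of the set variables of an arithmetical formula. -/
def renameS (ρ : ℕ → ℕ) : Formula → Formula
  | .feq s t => .feq s t
  | .flt s t => .flt s t
  | .fmem t X => .fmem t (ρ X)
  | .fneg φ => .fneg (renameS ρ φ)
  | .fand φ ψ => .fand (renameS ρ φ) (renameS ρ ψ)
  | .fallN x φ => .fallN x (renameS ρ φ)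
  | .fallS X φ => .fallS X φ

theorem arithmetical_renameS {ρ : ℕ → ℕ} {φ : Formula} (h : Arithmetical φ) :
    Arithmetical (renameS ρ φ) := by
  induction φ with
  | feq s t => trivial
  | flt s t => trivial
  | fmem t X => trivial
  | fneg φ ih => exact ih h
  | fand φ ψ ih1 ih2 => exact ⟨ih1 h.1, ih2 h.2⟩
  | fallN x φ ih => exact ih h
  | fallS X φ ih => exact h.elim

theorem satN_renameS {ρ : ℕ → ℕ} {φ : Formula} (h : Arithmetical φ) (v : ℕ → ℕ)
    (V : ℕ → Set ℕ) : SatN (renameS ρ φ) v V ↔ SatN φ v (fun i => V (ρ i)) := by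
  induction φ generalizing v with
  | feq s t => rfl
  | flt s t => rfl
  | fmem t X => rfl
  | fneg φ ih => exact not_congr (ih h v)
  | fand φ ψ ih1 ih2 => exact and_congr (ih1 h.1 v) (ih2 h.2 v)
  | fallN x φ ih => exact forall_congr' fun a => ih h _
  | fallS X φ ih => exact h.elim

/-! ### The Henkin construction -/

/-- A formula together with values for its number variables. -/
abbrev Pr := Formula × (ℕ →₀ ℕ)

/-- The sequence of sets `V` satisfies the pair. -/
def holds (V : ℕ → Set ℕ) (q : Pr) : Prop := SatN q.1 q.2 V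

/-- Sequences satisfying a finite set of pairs. -/
def sols (P : Set ℕ) (F : Finset Pr) : Set (ℕ → Set ℕ) := {V | V 0 = P ∧ ∀ q ∈ F, holds V q}

/-- Conditions: satisfiable finite sets of arithmetical pairs. -/
def Cond (P : Set ℕ) : Type :=
  {F : Finset Pr // (∀ q ∈ F, Arithmetical q.1) ∧ (sols P F).Nonempty}

instance (P : Set ℕ) : Preorder (Cond P) := Preorder.lift (fun F => F.1)

theorem Cond.le_def {P : Set ℕ} {F F' : Cond P} : F ≤ F' ↔ F.1 ⊆ F'.1 := Iff.rfl

/-- Adding a pair to a condition. -/
theorem Cond.exists_insert {P : Set ℕ} (F : Cond P) (q : Pr) (hq : Arithmetical q.1)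
    (V : ℕ → Set ℕ) (hV : V ∈ sols P F.1) (hVq : holds V q) :
    ∃ F' : Cond P, F ≤ F' ∧ q ∈ F'.1 := by
  classical
  refine ⟨⟨insert q F.1, ?_, V, hV.1, ?_⟩, ?_, ?_⟩
  · intro r hr
    rcases Finset.mem_insert.1 hr with rfl | hr
    · exact hq
    · exact F.2.1 r hr
  · intro r hr
    rcases Finset.mem_insert.1 hr with rfl | hr
    · exact hVq
    · exact hV.2 r hr
  · exact Finset.subset_insert _ _
  · exact Finset.mem_insert_self _ _

/-- The dense sets to be met. -/
inductive Req
  | decide : Pr → Req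
  | num : Pr → ℕ → Req
  | set : Pr → ℕ → Req
  | avoid : ℕ → Req
  deriving Countable

/-- The meaning of the requirements. -/
def Req.carrier (P S : Set ℕ) : Req → Set (Cond P)
  | .decide q => {F | Arithmetical q.1 → q ∈ F.1 ∨ (Formula.fneg q.1, q.2) ∈ F.1}
  | .num q x => {F | Arithmetical q.1 → (Formula.fallN x q.1, q.2) ∈ F.1 ∨
      ∃ n : ℕ, (Formula.fneg q.1, q.2.update x n) ∈ F.1}
  | .set q X => {F | Arithmetical q.1 →
      (∀ V ∈ sols P F.1, ¬ ∃ Y, SatN q.1 q.2 (Function.update V X Y)) ∨
      ∃ j : ℕ, (renameS (Function.update id X j) q.1, q.2) ∈ F.1}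
  | .avoid i => {F | ∃ m : ℕ,
      (m ∈ S ∧ (Formula.fneg (.fmem (.tvar 0) i), Finsupp.single 0 m) ∈ F.1) ∨
      (m ∉ S ∧ (Formula.fmem (.tvar 0) i, Finsupp.single 0 m) ∈ F.1)}

/-- The set `S` is not defined by a condition. -/
def NotDef (P S : Set ℕ) : Prop :=
  ∀ (F : Finset Pr) (i : ℕ), (∀ q ∈ F, Arithmetical q.1) → {m | ∃ V ∈ sols P F, m ∈ V i} ≠ S

/-- A bound for all variables in a finite set of pairs. -/
theorem exists_bound (F : Finset Pr) : ∃ k, ∀ q ∈ F, bd q.1 ≤ k :=
  ⟨F.sup fun q => bd q.1, fun _ hq => Finset.le_sup (f := fun q : Pr => bd q.1) hq⟩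

theorem Req.isCofinal {P S : Set ℕ} (hS : NotDef P S) (r : Req) :
    IsCofinal (r.carrier P S) := by
  intro F
  obtain ⟨V, hV⟩ := F.2.2
  cases r with
  | decide q =>
    by_cases hq : Arithmetical q.1
    · by_cases h : holds V q
      · obtain ⟨F', h1, h2⟩ := F.exists_insert q hq V hV h
        exact ⟨F', fun _ => Or.inl h2, h1⟩
      · obtain ⟨F', h1, h2⟩ := F.exists_insert (Formula.fneg q.1, q.2) hq V hV h
        exact ⟨F', fun _ => Or.inr h2, h1⟩
    · exact ⟨F, fun h => absurd h hq, le_rfl⟩
  | num q x =>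
    by_cases hq : Arithmetical q.1
    · by_cases h : ∀ n : ℕ, SatN q.1 (Function.update q.2 x n) V
      · obtain ⟨F', h1, h2⟩ := F.exists_insert (Formula.fallN x q.1, q.2) hq V hV h
        exact ⟨F', fun _ => Or.inl h2, h1⟩
      · push Not at h
        obtain ⟨n, hn⟩ := h
        obtain ⟨F', h1, h2⟩ := F.exists_insert (Formula.fneg q.1, q.2.update x n) hq V hV (by
          change ¬ SatN q.1 (q.2.update x n) V
          rw [Finsupp.coe_update]
          exact hn)
        exact ⟨F', fun _ => Or.inr ⟨n, h2⟩, h1⟩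
    · exact ⟨F, fun h => absurd h hq, le_rfl⟩
  | set q X =>
    by_cases hq : Arithmetical q.1
    · by_cases h : ∃ V ∈ sols P F.1, ∃ Y, SatN q.1 q.2 (Function.update V X Y)
      · obtain ⟨V, hV, Y, hY⟩ := h
        obtain ⟨k, hk⟩ := exists_bound F.1
        set j := k + bd q.1 + X + 1 with hj
        have hVj : Function.update V j Y ∈ sols P F.1 := by
          refine ⟨?_, fun r hr => ?_⟩
          · rw [Function.update_of_ne (by omega)]
            exact hV.1
          · refine (satN_congr (fun i _ => rfl) fun i hi => ?_).2 (hV.2 r hr)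
            have := hk r hr
            rw [Function.update_of_ne (by omega)]
        obtain ⟨F', h1, h2⟩ := F.exists_insert (renameS (Function.update id X j) q.1, q.2)
          (arithmetical_renameS hq) _ hVj (by
            change SatN _ _ _
            rw [satN_renameS hq]
            refine (satN_congr (fun i _ => rfl) fun i hi => ?_).2 hY
            by_cases hiX : i = X
            · subst hiX
              simp
            · simp only [Function.update_of_ne hiX, id]
              rw [Function.update_of_ne (by omega)])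
        exact ⟨F', fun _ => Or.inr ⟨j, h2⟩, h1⟩
      · push Not at h
        refine ⟨F, fun _ => Or.inl ?_, le_rfl⟩
        rintro V hV ⟨Y, hY⟩
        exact h V hV Y hY
    · exact ⟨F, fun h => absurd h hq, le_rfl⟩
  | avoid i =>
    have hne := hS F.1 i F.2.1
    have h : ∃ V ∈ sols P F.1, V i ≠ S := by
      by_contra hcon
      push Not at hcon
      apply hne
      ext m
      constructor
      · rintro ⟨V, hV, hm⟩
        rw [← hcon V hV]
        exact hm
      · intro hm
        refine ⟨V, hV, ?_⟩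
        rw [hcon V hV]
        exact hm
    obtain ⟨V, hV, hVS⟩ := h
    have h' : ∃ m, (m ∈ S ∧ m ∉ V i) ∨ (m ∉ S ∧ m ∈ V i) := by
      by_contra hcon
      push Not at hcon
      apply hVS
      ext m
      constructor
      · intro hm
        by_contra hmS
        exact (hcon m).2 hmS hm
      · exact (hcon m).1
    obtain ⟨m, hm⟩ := h'
    rcases hm with ⟨hm1, hm2⟩ | ⟨hm1, hm2⟩
    · obtain ⟨F', h1, h2⟩ := F.exists_insert
        (Formula.fneg (.fmem (.tvar 0) i), Finsupp.single 0 m) trivial V hV (by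
          change ¬ _ ∈ _
          simpa [evN] using hm2)
      exact ⟨F', ⟨m, Or.inl ⟨hm1, h2⟩⟩, h1⟩
    · obtain ⟨F', h1, h2⟩ := F.exists_insert
        (Formula.fmem (.tvar 0) i, Finsupp.single 0 m) trivial V hV (by
          change _ ∈ _
          simpa [evN] using hm2)
      exact ⟨F', ⟨m, Or.inr ⟨hm1, h2⟩⟩, h1⟩

/-- Correctness of a family of sets for `Σ^1_1` formulas with parameters in the family. -/
def Beta (𝒮 : Set (Set ℕ)) : Prop :=
  ∀ (θ : Formula), Arithmetical θ → ∀ (X : ℕ) (v : ℕ → ℕ) (V : ℕ → Set ℕ), (∀ i, V i ∈ 𝒮) →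
    (∃ Y, SatN θ v (Function.update V X Y)) → ∃ Y ∈ 𝒮, SatN θ v (Function.update V X Y)

/-- Existence of beta-models omitting a given set which is not `Σ^1_1` from the parameter. -/
theorem exists_beta {P S : Set ℕ} (hS : NotDef P S) :
    ∃ 𝒮 : Set (Set ℕ), P ∈ 𝒮 ∧ S ∉ 𝒮 ∧ Beta 𝒮 := by
  classical
  have : Encodable Req := Encodable.ofCountable _
  let 𝒟 : Req → Order.Cofinal (Cond P) := fun r => ⟨r.carrier P S, r.isCofinal hS⟩
  let F0 : Cond P := ⟨∅, by simp, fun _ => P, rfl, by simp⟩
  let I := Order.idealOfCofinals F0 𝒟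
  have hmeet : ∀ r : Req, ∃ F ∈ r.carrier P S, F ∈ I := fun r =>
    Order.cofinal_meets_idealOfCofinals F0 𝒟 r
  have hdir : ∀ F1 ∈ I, ∀ F2 ∈ I, ∃ F3 ∈ I, F1 ≤ F3 ∧ F2 ≤ F3 := I.directed
  let Tot : Set Pr := {q | ∃ F ∈ I, q ∈ F.1}
  have harith : ∀ q ∈ Tot, Arithmetical q.1 := by
    rintro q ⟨F, _, hq⟩
    exact F.2.1 q hq
  have hcons : ∀ q1 ∈ Tot, ∀ q2 ∈ Tot, ∃ V, V 0 = P ∧ holds V q1 ∧ holds V q2 := by
    rintro q1 ⟨F1, h1, h2⟩ q2 ⟨F2, h3, h4⟩
    obtain ⟨F3, h5, h6, h7⟩ := hdir F1 h1 F2 h3
    obtain ⟨V, hV⟩ := F3.2.2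
    exact ⟨V, hV.1, hV.2 _ (h6 h2), hV.2 _ (h7 h4)⟩
  have hdec : ∀ q : Pr, Arithmetical q.1 → q ∈ Tot ∨ (Formula.fneg q.1, q.2) ∈ Tot := by
    intro q hq
    obtain ⟨F, hF, hFI⟩ := hmeet (.decide q)
    rcases hF hq with h | h
    · exact Or.inl ⟨F, hFI, h⟩
    · exact Or.inr ⟨F, hFI, h⟩
  let G : ℕ → Set ℕ := fun i => {m | (Formula.fmem (.tvar 0) i, Finsupp.single 0 m) ∈ Tot}
  have htruth : ∀ (θ : Formula), Arithmetical θ → ∀ v : ℕ →₀ ℕ, ((θ, v) ∈ Tot ↔ SatN θ v G) := by
    intro θ
    induction θ with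
    | feq s t =>
      intro hθ v
      constructor
      · intro h
        obtain ⟨V, _, h1, _⟩ := hcons _ h _ h
        exact h1
      · intro h
        rcases hdec (.feq s t, v) hθ with h1 | h1
        · exact h1
        · obtain ⟨V, _, h2, _⟩ := hcons _ h1 _ h1
          exact absurd h h2
    | flt s t =>
      intro hθ v
      constructor
      · intro h
        obtain ⟨V, _, h1, _⟩ := hcons _ h _ h
        exact h1
      · intro h
        rcases hdec (.flt s t, v) hθ with h1 | h1
        · exact h1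
        · obtain ⟨V, _, h2, _⟩ := hcons _ h1 _ h1
          exact absurd h h2
    | fmem t X =>
      intro hθ v
      have hev : ∀ V : ℕ → Set ℕ,
          holds V (Formula.fmem (.tvar 0) X, Finsupp.single 0 (evN v t)) ↔ evN v t ∈ V X := by
        intro V
        simp [holds, SatN, evN]
      constructor
      · intro h
        change (Formula.fmem (.tvar 0) X, Finsupp.single 0 (evN v t)) ∈ Tot
        rcases hdec (.fmem (.tvar 0) X, Finsupp.single 0 (evN v t)) trivial with h1 | h1
        · exact h1
        · obtain ⟨V, _, h2, h3⟩ := hcons _ h _ h1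
          exact absurd ((hev V).2 h2) h3
      · intro h
        have h' : (Formula.fmem (.tvar 0) X, Finsupp.single 0 (evN v t)) ∈ Tot := h
        rcases hdec (.fmem t X, v) trivial with h1 | h1
        · exact h1
        · obtain ⟨V, _, h2, h3⟩ := hcons _ h' _ h1
          exact absurd ((hev V).1 h2) h3
    | fneg φ ih =>
      intro hθ v
      have ihv := ih hθ v
      constructor
      · intro h hcon
        obtain ⟨V, _, h2, h3⟩ := hcons _ h _ (ihv.2 hcon)
        exact h2 h3
      · intro h
        rcases hdec (φ, v) hθ with h1 | h1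
        · exact absurd (ihv.1 h1) h
        · exact h1
    | fand φ ψ ih1 ih2 =>
      intro hθ v
      have ih1v := ih1 hθ.1 v
      have ih2v := ih2 hθ.2 v
      constructor
      · intro h
        constructor
        · rw [← ih1v]
          rcases hdec (φ, v) hθ.1 with h1 | h1
          · exact h1
          · obtain ⟨V, _, h2, h3⟩ := hcons _ h _ h1
            exact absurd h2.1 h3
        · rw [← ih2v]
          rcases hdec (ψ, v) hθ.2 with h1 | h1
          · exact h1
          · obtain ⟨V, _, h2, h3⟩ := hcons _ h _ h1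
            exact absurd h2.2 h3
      · rintro ⟨h1, h2⟩
        obtain ⟨F1, h3, h4⟩ := ih1v.2 h1
        obtain ⟨F2, h5, h6⟩ := ih2v.2 h2
        rcases hdec (.fand φ ψ, v) hθ with h7 | ⟨F3, h8, h9⟩
        · exact h7
        · obtain ⟨F4, h10, h11, h12⟩ := hdir F1 h3 F2 h5
          obtain ⟨F5, h13, h14, h15⟩ := hdir F3 h8 F4 h10
          obtain ⟨V, hV⟩ := F5.2.2
          have e1 := hV.2 _ (h15 (h11 h4))
          have e2 := hV.2 _ (h15 (h12 h6))
          have e3 := hV.2 _ (h14 h9)
          exact absurd ⟨e1, e2⟩ e3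
    | fallN x φ ih =>
      intro hθ v
      have hup : ∀ n : ℕ, ((φ, v.update x n) ∈ Tot ↔ SatN φ (Function.update v x n) G) := by
        intro n
        rw [ih hθ (v.update x n), Finsupp.coe_update]
      constructor
      · intro h n
        rw [← hup n]
        rcases hdec (φ, v.update x n) hθ with h1 | h1
        · exact h1
        · obtain ⟨V, _, h2, h3⟩ := hcons _ h _ h1
          have h4 := h2 n
          have h5 : ¬ SatN φ (v.update x n) V := h3
          rw [Finsupp.coe_update] at h5
          exact absurd h4 h5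
      · intro h
        obtain ⟨F, hF, hFI⟩ := hmeet (.num (φ, v) x)
        rcases hF hθ with h1 | ⟨n, h1⟩
        · exact ⟨F, hFI, h1⟩
        · have h2 := (hup n).2 (h n)
          obtain ⟨V, _, h3, h4⟩ := hcons _ h2 _ ⟨F, hFI, h1⟩
          exact absurd h3 h4
    | fallS X φ ih =>
      intro hθ
      exact hθ.elim
  have hG0 : G 0 = P := by
    ext m
    have hev : ∀ V : ℕ → Set ℕ,
        holds V (Formula.fmem (.tvar 0) 0, Finsupp.single 0 m) ↔ m ∈ V 0 := by
      intro V
      simp [holds, SatN, evN]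
    constructor
    · intro hm
      obtain ⟨V, h0, h1, _⟩ := hcons _ hm _ hm
      rw [← h0]
      exact (hev V).1 h1
    · intro hm
      rcases hdec (.fmem (.tvar 0) 0, Finsupp.single 0 m) trivial with h1 | h1
      · exact h1
      · obtain ⟨V, h0, h2, _⟩ := hcons _ h1 _ h1
        refine absurd ?_ h2
        rw [← h0] at hm
        exact (hev V).2 hm
  have hGsol : ∀ F ∈ I, G ∈ sols P F.1 := by
    intro F hF
    refine ⟨hG0, fun q hq => ?_⟩
    exact (htruth q.1 (F.2.1 q hq) q.2).1 ⟨F, hF, hq⟩
  refine ⟨Set.range G, ⟨0, hG0⟩, ?_, ?_⟩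
  · rintro ⟨i, hi⟩
    obtain ⟨F, ⟨m, hm⟩, hFI⟩ := hmeet (.avoid i)
    have hev : ∀ V : ℕ → Set ℕ,
        holds V (Formula.fmem (.tvar 0) i, Finsupp.single 0 m) ↔ m ∈ V i := by
      intro V
      simp [holds, SatN, evN]
    have hs := hGsol F hFI
    rcases hm with ⟨h1, h2⟩ | ⟨h1, h2⟩
    · have h3 : ¬ holds G (Formula.fmem (.tvar 0) i, Finsupp.single 0 m) := hs.2 _ h2
      rw [hev G, hi] at h3
      exact h3 h1
    · have h3 : holds G (Formula.fmem (.tvar 0) i, Finsupp.single 0 m) := hs.2 _ h2
      rw [hev G, hi] at h3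
      exact h1 h3
  · intro θ hθ X v V hV hex
    choose σ hσ using hV
    obtain ⟨Y, hY⟩ := hex
    -- a fresh variable
    obtain ⟨k, hk⟩ : ∃ k, ∀ i < bd θ, σ i < k := by
      refine ⟨(Finset.range (bd θ)).sup σ + 1, fun i hi => ?_⟩
      exact Nat.lt_succ_of_le (Finset.le_sup (Finset.mem_range.2 hi))
    set ρ := Function.update σ X k with hρ
    set θ' := renameS ρ θ with hθ'
    have hθ'a : Arithmetical θ' := arithmetical_renameS hθ
    let v' : ℕ →₀ ℕ := Finsupp.onFinset (Finset.range (bd θ'))
      (fun i => if i < bd θ' then v i else 0) (by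
        intro i hi
        rw [Finset.mem_range]
        by_contra hcon
        simp [hcon] at hi)
    have hv' : ∀ i < bd θ', v' i = v i := by
      intro i hi
      simp [v', hi]
    have hsat : ∀ Z, SatN θ' v' (Function.update G k Z) ↔ SatN θ v (Function.update V X Z) := by
      intro Z
      rw [satN_congr hv' (fun i _ => rfl), hθ', satN_renameS hθ]
      refine satN_congr (fun i _ => rfl) fun i hi => ?_
      by_cases hiX : i = X
      · subst hiX
        simp [hρ]
      · have h1 := hk i hi
        rw [hρ, Function.update_of_ne hiX, Function.update_of_ne hiX,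
          Function.update_of_ne (by omega), hσ]
    obtain ⟨F, hF, hFI⟩ := hmeet (.set (θ', v') k)
    rcases hF hθ'a with h | ⟨j, hj⟩
    · exact absurd ⟨Y, (hsat Y).2 hY⟩ (h G (hGsol F hFI))
    · refine ⟨G j, ⟨j, rfl⟩, ?_⟩
      rw [← hsat (G j)]
      have h1 := (htruth _ (arithmetical_renameS hθ'a) v').1 ⟨F, hFI, hj⟩
      rw [satN_renameS hθ'a] at h1
      convert h1 using 1
      funext i
      by_cases hik : i = k
      · subst hik
        simp
      · simp [hik]

end Pool.Agent.Lib.MP_660a49_lc
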