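import Pool.Agent.Lib.MP_660a49_lc.Ulm

/-!
# Kaplansky's test problems for countable torsion abelian groups

If `G ⊕ G ≅ H ⊕ H` then `G ≅ H`; if `G` and `H` are direct summands of each other then `G ≅ H`.
-/

open Set

namespace Pool.Agent.Lib.MP_660a49_lc

section invariants

variable {p : ℕ} {G H K : Type} [AddCommGroup G] [AddCommGroup H] [AddCommGroup K]
  {α : Ordinal.{0}}

theorem mem_U_equiv (e : G ≃+ H) (x : G) : e x ∈ U p H α ↔ x ∈ U p G α := by
  induction α using WellFoundedLT.induction generalizing x with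
  | ind α ih =>
    rw [mem_U, mem_U]
    refine forall_congr' fun β => forall_congr' fun hβ => ?_
    constructor
    · rintro ⟨y, hy, hyx⟩
      refine ⟨e.symm y, ?_, ?_⟩
      · rw [← ih β hβ, AddEquiv.apply_symm_apply]
        exact hy
      · rw [← map_nsmul, hyx, AddEquiv.symm_apply_apply]
    · rintro ⟨y, hy, hyx⟩
      refine ⟨e y, (ih β hβ y).2 hy, ?_⟩
      rw [← map_nsmul, hyx]

theorem mem_U_prod (x : G × K) : x ∈ U p (G × K) α ↔ x.1 ∈ U p G α ∧ x.2 ∈ U p K α := by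
  induction α using WellFoundedLT.induction generalizing x with
  | ind α ih =>
    rw [mem_U, mem_U, mem_U]
    constructor
    · intro h
      constructor
      · intro β hβ
        obtain ⟨y, hy, hyx⟩ := h β hβ
        exact ⟨y.1, ((ih β hβ y).1 hy).1, by rw [← hyx]; rfl⟩
      · intro β hβ
        obtain ⟨y, hy, hyx⟩ := h β hβ
        exact ⟨y.2, ((ih β hβ y).1 hy).2, by rw [← hyx]; rfl⟩
    · rintro ⟨h1, h2⟩ β hβ
      obtain ⟨y, hy, hyx⟩ := h1 β hβ
      obtain ⟨z, hz, hzx⟩ := h2 β hβ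
      exact ⟨(y, z), (ih β hβ (y, z)).2 ⟨hy, hz⟩, Prod.ext hyx hzx⟩

theorem mem_D_equiv (e : G ≃+ H) (x : G) : e x ∈ D p H ↔ x ∈ D p G := by
  rw [mem_D, mem_D]
  exact forall_congr' fun α => mem_U_equiv e x

theorem mem_D_prod (x : G × K) : x ∈ D p (G × K) ↔ x.1 ∈ D p G ∧ x.2 ∈ D p K := by
  simp only [mem_D, mem_U_prod, forall_and]

theorem mem_socle_equiv (e : G ≃+ H) (x : G) : e x ∈ socle p H ↔ x ∈ socle p G := by
  rw [mem_socle, mem_socle, ← map_nsmul, EmbeddingLike.map_eq_zero_iff]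

theorem mem_socle_prod (x : G × K) : x ∈ socle p (G × K) ↔ x.1 ∈ socle p G ∧ x.2 ∈ socle p K := by
  simp only [mem_socle, Prod.ext_iff, Prod.smul_fst, Prod.smul_snd, Prod.fst_zero, Prod.snd_zero]

theorem relIndex_prod' {A1 B1 : AddSubgroup G} {A2 B2 : AddSubgroup K} (h1 : B1 ≤ A1)
    (h2 : B2 ≤ A2) :
    (B1.prod B2).relIndex (A1.prod A2) = B1.relIndex A1 * B2.relIndex A2 := by
  have e1 : (B1.prod B2).relIndex (A1.prod B2) = B1.relIndex A1 := by
    have : (B1.prod B2) = B1.comap (AddMonoidHom.fst G K) ⊓ (A1.prod B2) := by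
      ext x
      simp only [AddSubgroup.mem_prod, AddSubgroup.mem_inf, AddSubgroup.mem_comap,
        AddMonoidHom.coe_fst]
      exact ⟨fun h => ⟨h.1, h1 h.1, h.2⟩, fun h => ⟨h.1, h.2.2⟩⟩
    rw [this, AddSubgroup.inf_relIndex_right, AddSubgroup.relIndex_comap]
    congr 1
    ext x
    constructor
    · rintro ⟨y, hy, rfl⟩
      exact (AddSubgroup.mem_prod.1 hy).1
    · intro hx
      exact ⟨(x, 0), AddSubgroup.mem_prod.2 ⟨hx, zero_mem _⟩, rfl⟩
  have e2 : (A1.prod B2).relIndex (A1.prod A2) = B2.relIndex A2 := by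
    have : (A1.prod B2) = B2.comap (AddMonoidHom.snd G K) ⊓ (A1.prod A2) := by
      ext x
      simp only [AddSubgroup.mem_prod, AddSubgroup.mem_inf, AddSubgroup.mem_comap,
        AddMonoidHom.coe_snd]
      exact ⟨fun h => ⟨h.2, h.1, h2 h.2⟩, fun h => ⟨h.2.1, h.1⟩⟩
    rw [this, AddSubgroup.inf_relIndex_right, AddSubgroup.relIndex_comap]
    congr 1
    ext x
    constructor
    · rintro ⟨y, hy, rfl⟩
      exact (AddSubgroup.mem_prod.1 hy).2
    · intro hx
      exact ⟨(0, x), AddSubgroup.mem_prod.2 ⟨zero_mem _, hx⟩, rfl⟩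
  rw [← AddSubgroup.relIndex_mul_relIndex (B1.prod B2) (A1.prod B2) (A1.prod A2)
    (AddSubgroup.prod_mono h1 le_rfl) (AddSubgroup.prod_mono le_rfl h2), e1, e2]

theorem ulm_equiv (e : G ≃+ H) : ulm p G α = ulm p H α := by
  unfold ulm
  have h1 : ∀ β, U p G β ⊓ socle p G = (U p H β ⊓ socle p H).comap e.toAddMonoidHom := by
    intro β
    ext x
    simp only [AddSubgroup.mem_inf, AddSubgroup.mem_comap]
    exact ⟨fun h => ⟨(mem_U_equiv e x).2 h.1, (mem_socle_equiv e x).2 h.2⟩,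
      fun h => ⟨(mem_U_equiv e x).1 h.1, (mem_socle_equiv e x).1 h.2⟩⟩
  rw [h1, h1, AddSubgroup.relIndex_comap, AddSubgroup.map_comap_eq_self_of_surjective]
  exact e.surjective

theorem ulm_prod : ulm p (G × K) α = ulm p G α * ulm p K α := by
  unfold ulm
  have h1 : ∀ β, U p (G × K) β ⊓ socle p (G × K) =
      (U p G β ⊓ socle p G).prod (U p K β ⊓ socle p K) := by
    intro β
    ext x
    simp only [AddSubgroup.mem_inf, AddSubgroup.mem_prod, mem_U_prod, mem_socle_prod]
    tauto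
  rw [h1, h1, relIndex_prod']
  · exact inf_le_inf_right _ (U_anti (Order.le_succ α))
  · exact inf_le_inf_right _ (U_anti (Order.le_succ α))

theorem ulmTop_equiv (e : G ≃+ H) : ulmTop p G = ulmTop p H := by
  unfold ulmTop
  refine Nat.card_congr ⟨fun x => ⟨e x.1, ?_⟩, fun y => ⟨e.symm y.1, ?_⟩, ?_, ?_⟩
  · exact ⟨(mem_D_equiv e x.1).2 x.2.1, (mem_socle_equiv e x.1).2 x.2.2⟩
  · exact ⟨(mem_D_equiv e.symm y.1).2 y.2.1, (mem_socle_equiv e.symm y.1).2 y.2.2⟩
  · intro x
    exact Subtype.ext (e.symm_apply_apply _)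
  · intro y
    exact Subtype.ext (e.apply_symm_apply _)

theorem ulmTop_prod : ulmTop p (G × K) = ulmTop p G * ulmTop p K := by
  unfold ulmTop
  rw [← Nat.card_prod]
  refine Nat.card_congr ⟨fun x => (⟨x.1.1, ?_⟩, ⟨x.1.2, ?_⟩), fun y => ⟨(y.1.1, y.2.1), ?_⟩, ?_, ?_⟩
  · exact ⟨((mem_D_prod x.1).1 x.2.1).1, ((mem_socle_prod x.1).1 x.2.2).1⟩
  · exact ⟨((mem_D_prod x.1).1 x.2.1).2, ((mem_socle_prod x.1).1 x.2.2).2⟩
  · exact ⟨(mem_D_prod _).2 ⟨y.1.2.1, y.2.2.1⟩, (mem_socle_prod _).2 ⟨y.1.2.2, y.2.2.2⟩⟩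
  · intro x
    rfl
  · intro y
    rfl

end invariants

section primary

variable {p : ℕ} {G H K : Type} [AddCommGroup G] [AddCommGroup H] [AddCommGroup K]

/-- The `p`-primary component. -/
def prim (p : ℕ) (G : Type) [AddCommGroup G] : AddSubgroup G where
  carrier := {x | ∃ n : ℕ, p ^ n • x = 0}
  zero_mem' := ⟨0, by simp⟩
  add_mem' := by
    rintro x y ⟨n, hn⟩ ⟨m, hm⟩
    refine ⟨n + m, ?_⟩
    rw [nsmul_add, pow_add, mul_comm, mul_nsmul', hn, nsmul_zero, mul_comm, mul_nsmul', hm,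
      nsmul_zero, add_zero]
  neg_mem' := by
    rintro x ⟨n, hn⟩
    exact ⟨n, by rw [smul_neg, hn, neg_zero]⟩

theorem mem_prim {x : G} : x ∈ prim p G ↔ ∃ n : ℕ, p ^ n • x = 0 := Iff.rfl

theorem isPrimary_prim : IsPrimary p (prim p G) := by
  rintro ⟨x, n, hn⟩
  exact ⟨n, Subtype.ext hn⟩

/-- Primary components are preserved by isomorphisms. -/
def primEquiv (e : G ≃+ H) : prim p G ≃+ prim p H where
  toFun x := ⟨e x.1, by
    obtain ⟨n, hn⟩ := x.2
    exact ⟨n, by rw [← map_nsmul, hn, map_zero]⟩⟩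
  invFun y := ⟨e.symm y.1, by
    obtain ⟨n, hn⟩ := y.2
    exact ⟨n, by rw [← map_nsmul, hn, map_zero]⟩⟩
  left_inv x := Subtype.ext (e.symm_apply_apply _)
  right_inv y := Subtype.ext (e.apply_symm_apply _)
  map_add' x y := Subtype.ext (map_add e _ _)

/-- Primary components of products. -/
def primProd : prim p (G × K) ≃+ prim p G × prim p K where
  toFun x := (⟨x.1.1, by
    obtain ⟨n, hn⟩ := x.2
    exact ⟨n, congrArg Prod.fst hn⟩⟩, ⟨x.1.2, by
    obtain ⟨n, hn⟩ := x.2
    exact ⟨n, congrArg Prod.snd hn⟩⟩)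
  invFun y := ⟨(y.1.1, y.2.1), by
    obtain ⟨n, hn⟩ := y.1.2
    obtain ⟨m, hm⟩ := y.2.2
    refine ⟨n + m, Prod.ext ?_ ?_⟩
    · change p ^ (n + m) • y.1.1 = 0
      rw [pow_add, mul_comm, mul_nsmul', hn, nsmul_zero]
    · change p ^ (n + m) • y.2.1 = 0
      rw [pow_add, mul_nsmul', hm, nsmul_zero]⟩
  left_inv x := rfl
  right_inv y := rfl
  map_add' x y := rfl

/-- First test problem for `p`-groups. -/
theorem test_one_primary [Countable G] [Countable H] (hp : p.Prime) (hG : IsPrimary p G)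
    (hH : IsPrimary p H) (e : (G × G) ≃+ (H × H)) : Nonempty (G ≃+ H) := by
  refine ulm_theorem hp hG hH (fun β => ?_) ?_
  · have h := ulm_equiv (p := p) (α := β) e
    rw [ulm_prod, ulm_prod] at h
    exact Nat.mul_self_inj.1 h
  · have h := ulmTop_equiv (p := p) e
    rw [ulmTop_prod, ulmTop_prod] at h
    exact Nat.mul_self_inj.1 h

/-- Second test problem for `p`-groups. -/
theorem test_two_primary {L : Type} [AddCommGroup L] [Countable G] [Countable H] (hp : p.Prime)
    (hG : IsPrimary p G) (hH : IsPrimary p H) (e : H ≃+ (G × K)) (f : G ≃+ (H × L)) :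
    Nonempty (G ≃+ H) := by
  refine ulm_theorem hp hG hH (fun β => ?_) ?_
  · have h1 := ulm_equiv (p := p) (α := β) e
    have h2 := ulm_equiv (p := p) (α := β) f
    rw [ulm_prod] at h1 h2
    exact Nat.dvd_antisymm (Dvd.intro _ h1.symm) (Dvd.intro _ h2.symm)
  · have h1 := ulmTop_equiv (p := p) e
    have h2 := ulmTop_equiv (p := p) f
    rw [ulmTop_prod] at h1 h2
    exact Nat.dvd_antisymm (Dvd.intro _ h1.symm) (Dvd.intro _ h2.symm)

end primary

section torsion

variable {G H K : Type} [AddCommGroup G] [AddCommGroup H] [AddCommGroup K]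

open IsDedekindDomain Module

theorem exists_prime (P : HeightOneSpectrum ℤ) : ∃ p : ℕ, p.Prime ∧ P.asIdeal = Ideal.span {(p : ℤ)} := by
  have hpid := (IsPrincipalIdealRing.principal P.asIdeal).principal
  obtain ⟨a, ha⟩ := hpid
  have hspan : P.asIdeal = Ideal.span {a} := ha
  have hane : a ≠ 0 := by
    rintro rfl
    apply P.ne_bot
    rw [hspan]
    simp
  have hprime : Prime a := by
    rw [← Ideal.span_singleton_prime hane, ← hspan]
    exact P.isPrime
  refine ⟨a.natAbs, Int.prime_iff_natAbs_prime.1 hprime, ?_⟩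
  rw [hspan, Int.span_natAbs]

/-- The primary components of Mathlib are ours. -/
theorem mem_primaryComponent_iff {P : HeightOneSpectrum ℤ} {p : ℕ}
    (hP : P.asIdeal = Ideal.span {(p : ℤ)}) (x : G) :
    x ∈ Ideal.primaryComponent G P.asIdeal ↔ x ∈ prim p G := by
  rw [Ideal.primaryComponent_mem, mem_prim]
  refine exists_congr fun n => ?_
  rw [hP, Ideal.span_singleton_pow, ← Submodule.torsionBySet_eq_torsionBySet_span,
    Submodule.mem_torsionBySet_iff]
  constructor
  · intro h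
    have h1 := h ⟨(p : ℤ) ^ n, rfl⟩
    have h2 : ((p : ℤ) ^ n) • x = 0 := h1
    have h3 : ((p : ℤ) ^ n) = ((p ^ n : ℕ) : ℤ) := by push_cast; ring
    rw [h3, natCast_zsmul] at h2
    exact h2
  · rintro h ⟨a, rfl⟩
    change ((p : ℤ) ^ n) • x = 0
    have h3 : ((p : ℤ) ^ n) = ((p ^ n : ℕ) : ℤ) := by push_cast; ring
    rw [h3, natCast_zsmul]
    exact h

theorem nonempty_addEquiv_of_prim
    (hG : ∀ x : G, ∃ n : ℕ, 0 < n ∧ n • x = 0) (hH : ∀ x : H, ∃ n : ℕ, 0 < n ∧ n • x = 0)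
    (h : ∀ p : ℕ, p.Prime → Nonempty (prim p G ≃+ prim p H)) : Nonempty (G ≃+ H) := by
  classical
  have htor : ∀ (A : Type) [AddCommGroup A], (∀ x : A, ∃ n : ℕ, 0 < n ∧ n • x = 0) →
      IsTorsion ℤ A := by
    intro A _ hA x
    obtain ⟨n, hn, hnx⟩ := hA x
    refine ⟨⟨(n : ℤ), mem_nonZeroDivisors_iff_ne_zero.2 (by exact_mod_cast hn.ne')⟩, ?_⟩
    change (n : ℤ) • x = 0
    rw [natCast_zsmul]
    exact hnx
  have hint : ∀ (A : Type) [AddCommGroup A], (∀ x : A, ∃ n : ℕ, 0 < n ∧ n • x = 0) →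
      DirectSum.IsInternal (fun P : HeightOneSpectrum ℤ => Ideal.primaryComponent A P.asIdeal) := by
    intro A _ hA
    exact DirectSum.isInternal_submodule_of_iSupIndep_of_iSup_eq_top
      (Ideal.iSupIndep_primaryComponent ℤ A) (Ideal.iSup_primaryComponent_eq_top (htor A hA))
  have e1 := LinearEquiv.ofBijective (DirectSum.coeLinearMap
    (fun P : HeightOneSpectrum ℤ => Ideal.primaryComponent G P.asIdeal)) (hint G hG)
  have e2 := LinearEquiv.ofBijective (DirectSum.coeLinearMap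
    (fun P : HeightOneSpectrum ℤ => Ideal.primaryComponent H P.asIdeal)) (hint H hH)
  have hcomp : ∀ P : HeightOneSpectrum ℤ, Nonempty
      (Ideal.primaryComponent G P.asIdeal ≃+ Ideal.primaryComponent H P.asIdeal) := by
    intro P
    obtain ⟨p, hp, hP⟩ := exists_prime P
    obtain ⟨e⟩ := h p hp
    exact ⟨{
      toFun := fun x => ⟨(e ⟨x.1, (mem_primaryComponent_iff hP _).1 x.2⟩).1,
        (mem_primaryComponent_iff hP _).2 (e _).2⟩
      invFun := fun y => ⟨(e.symm ⟨y.1, (mem_primaryComponent_iff hP _).1 y.2⟩).1,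
        (mem_primaryComponent_iff hP _).2 (e.symm _).2⟩
      left_inv := fun x => by
        apply Subtype.ext
        simp
      right_inv := fun y => by
        apply Subtype.ext
        simp
      map_add' := fun x y => by
        apply Subtype.ext
        have : (⟨(x + y).1, (mem_primaryComponent_iff hP _).1 (x + y).2⟩ : prim p G) =
            ⟨x.1, (mem_primaryComponent_iff hP _).1 x.2⟩ +
            ⟨y.1, (mem_primaryComponent_iff hP _).1 y.2⟩ := rfl
        simp only [this, map_add]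
        rfl }⟩
  have e3 := fun P => (hcomp P).some
  exact ⟨(e1.symm.toAddEquiv.trans (DFinsupp.mapRange.addEquiv e3)).trans e2.toAddEquiv⟩

/-- Kaplansky's test problem: the square of a countable torsion abelian group determines it. -/
theorem test_one [Countable G] [Countable H]
    (hG : ∀ x : G, ∃ n : ℕ, 0 < n ∧ n • x = 0) (hH : ∀ x : H, ∃ n : ℕ, 0 < n ∧ n • x = 0)
    (e : (G × G) ≃+ (H × H)) : Nonempty (G ≃+ H) := by
  refine nonempty_addEquiv_of_prim hG hH fun p hp => ?_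
  exact test_one_primary hp isPrimary_prim isPrimary_prim
    ((primProd.symm.trans (primEquiv e)).trans primProd)

/-- Kaplansky's test problem: countable torsion abelian groups which are direct summands of each
other are isomorphic. -/
theorem test_two {L : Type} [AddCommGroup L] [Countable G] [Countable H]
    (hG : ∀ x : G, ∃ n : ℕ, 0 < n ∧ n • x = 0) (hH : ∀ x : H, ∃ n : ℕ, 0 < n ∧ n • x = 0)
    (e : H ≃+ (G × K)) (f : G ≃+ (H × L)) : Nonempty (G ≃+ H) := by
  refine nonempty_addEquiv_of_prim hG hH fun p hp => ?_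
  exact test_two_primary hp isPrimary_prim isPrimary_prim
    ((primEquiv e).trans primProd) ((primEquiv f).trans primProd)

end torsion

end Pool.Agent.Lib.MP_660a49_lc
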