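import Pool.Agent.Lib.MP_660a49_lc.Univ
import Pool.Agent.Lib.MP_660a49_lc.Kaplansky

/-!
# Coded groups

Semantic versions of the formulas about coded groups, and the translation to Lean groups.
-/

namespace Pool.Agent.Lib.MP_660a49_lc

/-- The meaning of `abGroup`. -/
structure AbSem (D A N Z : Set ℕ) : Prop where
  a1 : ∀ n ∈ A, ∃ a b c, a ∈ D ∧ b ∈ D ∧ c ∈ D ∧ n = pr (pr a b) c
  a2 : ∀ a b, a ∈ D ∧ b ∈ D → ∃ c, pr (pr a b) c ∈ A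
  a3 : ∀ a b c d, pr (pr a b) c ∈ A ∧ pr (pr a b) d ∈ A → c = d
  n1 : ∀ n ∈ N, ∃ a b, a ∈ D ∧ b ∈ D ∧ n = pr a b
  n2 : ∀ a, a ∈ D → ∃ b, pr a b ∈ N
  n3 : ∀ a b c, pr a b ∈ N ∧ pr a c ∈ N → b = c
  z1 : ∃ a, a ∈ D ∧ ∀ b, b ∈ Z ↔ b = a
  assoc : ∀ a b c d e f, pr (pr a b) d ∈ A ∧ pr (pr d c) e ∈ A ∧ pr (pr b c) f ∈ A →
    pr (pr a f) e ∈ A
  comm : ∀ a b c, pr (pr a b) c ∈ A → pr (pr b a) c ∈ A
  zero : ∀ a b, a ∈ D ∧ b ∈ Z → pr (pr a b) a ∈ A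
  inv : ∀ a b c, pr a b ∈ N ∧ c ∈ Z → pr (pr a b) c ∈ A

/-- A group `G` is represented by a domain `D` and a graph of addition `A`. -/
structure Rep (G : Type) [AddCommGroup G] (D A : Set ℕ) where
  c : G → ℕ
  inj : Function.Injective c
  dom : ∀ n, n ∈ D ↔ ∃ g, c g = n
  add : ∀ n, n ∈ A ↔ ∃ g h, n = pr (pr (c g) (c h)) (c (g + h))

theorem Rep.add_iff {G : Type} [AddCommGroup G] {D A : Set ℕ} (R : Rep G D A) {g h k : G} :
    pr (pr (R.c g) (R.c h)) (R.c k) ∈ A ↔ g + h = k := by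
  rw [R.add]
  constructor
  · rintro ⟨g', h', e⟩
    obtain ⟨e1, e2⟩ := pr_inj.1 e
    obtain ⟨e3, e4⟩ := pr_inj.1 e1
    rw [R.inj e3, R.inj e4, R.inj e2]
  · rintro rfl
    exact ⟨g, h, rfl⟩

/-- Every coded abelian group is represented by a Lean group. -/
theorem AbSem.exists_rep {D A N Z : Set ℕ} (H : AbSem D A N Z) :
    ∃ (G : Type) (_ : AddCommGroup G) (_ : Countable G) (R : Rep G D A), ∀ n, n ∈ Z ↔ n = R.c 0 := by
  classical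
  obtain ⟨z, hzD, hz⟩ := H.z1
  have hcl : ∀ a b c, pr (pr a b) c ∈ A → a ∈ D ∧ b ∈ D ∧ c ∈ D := by
    intro a b c h
    obtain ⟨a', b', c', h1, h2, h3, h4⟩ := H.a1 _ h
    obtain ⟨h5, rfl⟩ := pr_inj.1 h4
    obtain ⟨rfl, rfl⟩ := pr_inj.1 h5
    exact ⟨h1, h2, h3⟩
  have hadd : ∀ a b : D, ∃ c : D, pr (pr a b) c ∈ A := by
    intro a b
    obtain ⟨c, hc⟩ := H.a2 a b ⟨a.2, b.2⟩
    exact ⟨⟨c, (hcl _ _ _ hc).2.2⟩, hc⟩
  choose add hadd using hadd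
  have hneg : ∀ a : D, ∃ b : D, pr a b ∈ N := by
    intro a
    obtain ⟨b, hb⟩ := H.n2 a a.2
    obtain ⟨a', b', h1, h2, h3⟩ := H.n1 _ hb
    obtain ⟨_, rfl⟩ := pr_inj.1 h3
    exact ⟨⟨b, h2⟩, hb⟩
  choose neg hneg using hneg
  have huniq : ∀ (a b c : D), pr (pr a b) c ∈ A → add a b = c := by
    intro a b c h
    exact Subtype.ext (H.a3 _ _ _ _ ⟨hadd a b, h⟩)
  have hcomm : ∀ a b : D, add a b = add b a := by
    intro a b
    exact huniq _ _ _ (H.comm _ _ _ (hadd b a))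
  have hassoc : ∀ a b c : D, add (add a b) c = add a (add b c) := by
    intro a b c
    refine (huniq _ _ _ (H.assoc a b c (add a b) _ (add b c) ⟨hadd a b, hadd _ c, hadd b c⟩)).symm
  have hzero : ∀ a : D, add ⟨z, hzD⟩ a = a := by
    intro a
    rw [hcomm]
    exact huniq _ _ _ (H.zero a z ⟨a.2, (hz z).2 rfl⟩)
  have hinv : ∀ a : D, add (neg a) a = ⟨z, hzD⟩ := by
    intro a
    rw [hcomm]
    exact huniq _ _ _ (H.inv a (neg a) z ⟨hneg a, (hz z).2 rfl⟩)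
  let _ : Zero D := ⟨⟨z, hzD⟩⟩
  let _ : Add D := ⟨add⟩
  let _ : Neg D := ⟨neg⟩
  let i1 : AddGroup D := AddGroup.ofLeftAxioms hassoc hzero hinv
  let i2 : AddCommGroup D := { i1 with add_comm := hcomm }
  refine ⟨D, i2, inferInstance, ⟨fun a => a.1, Subtype.val_injective, ?_, ?_⟩, hz⟩
  · intro n
    exact ⟨fun h => ⟨⟨n, h⟩, rfl⟩, fun ⟨g, hg⟩ => hg ▸ g.2⟩
  · intro n
    constructor
    · intro h
      obtain ⟨a, b, c, h1, h2, h3, rfl⟩ := H.a1 _ h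
      refine ⟨⟨a, h1⟩, ⟨b, h2⟩, ?_⟩
      have e := huniq ⟨a, h1⟩ ⟨b, h2⟩ ⟨c, h3⟩ h
      have e' : (⟨a, h1⟩ + ⟨b, h2⟩ : D) = ⟨c, h3⟩ := e
      rw [e']
    · rintro ⟨g, h, rfl⟩
      exact hadd g h

/-- The meaning of the matrix of `torsion`. -/
def TorSem (A Z F : Set ℕ) (a n : ℕ) : Prop :=
  (∀ i b c, pr i b ∈ F ∧ pr i c ∈ F → b = c) ∧
  (∀ b, b ∈ Z → pr 0 b ∈ F) ∧
  (∀ i b c, pr i b ∈ F ∧ pr (pr b a) c ∈ A → pr (i + 1) c ∈ F) ∧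
  (∀ b, b ∈ Z → pr n b ∈ F)

theorem TorSem.nsmul {D A Z F : Set ℕ} {G : Type} [AddCommGroup G] (R : Rep G D A)
    (hZ : ∀ n, n ∈ Z ↔ n = R.c 0) {g : G} {n : ℕ} (h : TorSem A Z F (R.c g) n) : n • g = 0 := by
  obtain ⟨h1, h2, h3, h4⟩ := h
  have key : ∀ i : ℕ, pr i (R.c (i • g)) ∈ F := by
    intro i
    induction i with
    | zero =>
      rw [zero_nsmul]
      exact h2 _ ((hZ _).2 rfl)
    | succ i ih =>
      refine h3 i _ _ ⟨ih, ?_⟩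
      rw [R.add_iff, succ_nsmul]
  exact R.inj (h1 n _ _ ⟨key n, h4 _ ((hZ _).2 rfl)⟩)

/-- The meaning of `dirSum`, without the inverse and the identity. -/
def SumSem (D1 A1 D2 A2 D3 A3 : Set ℕ) : Prop :=
  (∀ n, n ∈ D3 ↔ ∃ a a', a ∈ D1 ∧ a' ∈ D2 ∧ n = pr a a') ∧
  (∀ n, n ∈ A3 ↔ ∃ a b c a' b' c', pr (pr a b) c ∈ A1 ∧ pr (pr a' b') c' ∈ A2 ∧
    n = pr (pr (pr a a') (pr b b')) (pr c c'))

/-- Representation of the direct sum. -/
def SumSem.rep {D1 A1 D2 A2 D3 A3 : Set ℕ} (h : SumSem D1 A1 D2 A2 D3 A3) {G H : Type}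
    [AddCommGroup G] [AddCommGroup H] (R : Rep G D1 A1) (S : Rep H D2 A2) :
    Rep (G × H) D3 A3 where
  c := fun x => pr (R.c x.1) (S.c x.2)
  inj := by
    intro x y hxy
    obtain ⟨e1, e2⟩ := pr_inj.1 hxy
    exact Prod.ext (R.inj e1) (S.inj e2)
  dom := by
    intro n
    rw [h.1]
    constructor
    · rintro ⟨a, a', h1, h2, rfl⟩
      obtain ⟨g, rfl⟩ := (R.dom _).1 h1
      obtain ⟨k, rfl⟩ := (S.dom _).1 h2
      exact ⟨(g, k), rfl⟩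
    · rintro ⟨x, rfl⟩
      exact ⟨_, _, (R.dom _).2 ⟨x.1, rfl⟩, (S.dom _).2 ⟨x.2, rfl⟩, rfl⟩
  add := by
    intro n
    rw [h.2]
    constructor
    · rintro ⟨a, b, c, a', b', c', h1, h2, rfl⟩
      obtain ⟨g1, g2, e1⟩ := (R.add _).1 h1
      obtain ⟨k1, k2, e2⟩ := (S.add _).1 h2
      obtain ⟨e3, rfl⟩ := pr_inj.1 e1
      obtain ⟨rfl, rfl⟩ := pr_inj.1 e3
      obtain ⟨e4, rfl⟩ := pr_inj.1 e2
      obtain ⟨rfl, rfl⟩ := pr_inj.1 e4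
      exact ⟨(g1, k1), (g2, k2), rfl⟩
    · rintro ⟨x, y, rfl⟩
      exact ⟨_, _, _, _, _, _, (R.add_iff (g := x.1) (h := y.1)).2 rfl,
        (S.add_iff (g := x.2) (h := y.2)).2 rfl, rfl⟩

/-- The meaning of the matrix of `iso`. -/
def IsoSem (D1 A1 D2 A2 F : Set ℕ) : Prop :=
  (∀ n, n ∈ F → ∃ a a', a ∈ D1 ∧ a' ∈ D2 ∧ n = pr a a') ∧
  (∀ a, a ∈ D1 → ∃ a', pr a a' ∈ F) ∧
  (∀ a', a' ∈ D2 → ∃ a, pr a a' ∈ F) ∧
  (∀ a a' b b', pr a a' ∈ F ∧ pr b b' ∈ F → (a = b ↔ a' = b')) ∧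
  (∀ a b c a' b' c', pr a a' ∈ F ∧ pr b b' ∈ F ∧ pr c c' ∈ F ∧ pr (pr a b) c ∈ A1 →
    pr (pr a' b') c' ∈ A2)

theorem IsoSem.equiv {D1 A1 D2 A2 F : Set ℕ} (h : IsoSem D1 A1 D2 A2 F) {G H : Type}
    [AddCommGroup G] [AddCommGroup H] (R : Rep G D1 A1) (S : Rep H D2 A2) :
    Nonempty (G ≃+ H) := by
  obtain ⟨h1, h2, h3, h4, h5⟩ := h
  have hex : ∀ g : G, ∃ k : H, pr (R.c g) (S.c k) ∈ F := by
    intro g
    obtain ⟨n, hn⟩ := h2 _ ((R.dom _).2 ⟨g, rfl⟩)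
    obtain ⟨a, a', _, h7, h8⟩ := h1 _ hn
    obtain ⟨_, rfl⟩ := pr_inj.1 h8
    obtain ⟨k, rfl⟩ := (S.dom _).1 h7
    exact ⟨k, hn⟩
  choose f hf using hex
  have hadd : ∀ g g', f (g + g') = f g + f g' := by
    intro g g'
    have := h5 _ _ _ _ _ _ ⟨hf g, hf g', hf (g + g'), R.add_iff.2 rfl⟩
    exact (S.add_iff.1 this).symm
  refine ⟨AddEquiv.ofBijective (AddMonoidHom.mk' f hadd) ⟨?_, ?_⟩⟩
  · intro g g' hgg
    have hgg' : f g = f g' := hgg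
    have e := (h4 _ _ _ _ ⟨hf g, hf g'⟩).2 (by rw [hgg'])
    exact R.inj e
  · intro k
    obtain ⟨n, hn⟩ := h3 _ ((S.dom _).2 ⟨k, rfl⟩)
    obtain ⟨a, a', h6, _, h8⟩ := h1 _ hn
    obtain ⟨rfl, _⟩ := pr_inj.1 h8
    obtain ⟨g, rfl⟩ := (R.dom _).1 h6
    refine ⟨g, ?_⟩
    have e := (h4 _ _ _ _ ⟨hf g, hn⟩).1 rfl
    exact S.inj e

theorem IsoSem.of_equiv {D1 A1 D2 A2 : Set ℕ} {G H : Type} [AddCommGroup G] [AddCommGroup H]
    (R : Rep G D1 A1) (S : Rep H D2 A2) (e : G ≃+ H) : ∃ F, IsoSem D1 A1 D2 A2 F := by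
  refine ⟨{n | ∃ g, n = pr (R.c g) (S.c (e g))}, ?_, ?_, ?_, ?_, ?_⟩
  · rintro n ⟨g, rfl⟩
    exact ⟨_, _, (R.dom _).2 ⟨g, rfl⟩, (S.dom _).2 ⟨e g, rfl⟩, rfl⟩
  · intro a ha
    obtain ⟨g, rfl⟩ := (R.dom _).1 ha
    exact ⟨_, g, rfl⟩
  · intro a ha
    obtain ⟨k, rfl⟩ := (S.dom _).1 ha
    exact ⟨R.c (e.symm k), e.symm k, by rw [e.apply_symm_apply]⟩
  · rintro a a' b b' ⟨⟨g, hg⟩, ⟨g', hg'⟩⟩
    obtain ⟨rfl, rfl⟩ := pr_inj.1 hg
    obtain ⟨rfl, rfl⟩ := pr_inj.1 hg'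
    constructor
    · intro h
      rw [R.inj h]
    · intro h
      rw [e.injective (S.inj h)]
  · rintro a b c a' b' c' ⟨⟨g1, h1⟩, ⟨g2, h2⟩, ⟨g3, h3⟩, h4⟩
    obtain ⟨rfl, rfl⟩ := pr_inj.1 h1
    obtain ⟨rfl, rfl⟩ := pr_inj.1 h2
    obtain ⟨rfl, rfl⟩ := pr_inj.1 h3
    rw [R.add_iff] at h4
    rw [S.add_iff, ← map_add, h4]

/-! ### Evaluation of the formulas -/

section eval

variable {𝒮 : Set (Set ℕ)} {h : 𝒮.Nonempty} {v : ℕ → ℕ} {V : ℕ → Set ℕ}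

theorem sat_abGroup (k : ℕ) (hs : Sat (omega 𝒮 h) (abGroup k) v V) :
    AbSem (V (4 * k)) (V (4 * k + 1)) (V (4 * k + 2)) (V (4 * k + 3)) := by
  simp only [abGroup, conj, allNs, exNs, List.foldr_cons, List.foldr_nil, inD, plus, minus, isZero,
    Sat, sat_imp, sat_iff, sat_exN, eval_omega, evN_pair, evN, Function.update_self, ne_eq,
    not_false_eq_true, Function.update_of_ne, OfNat.zero_ne_ofNat, OfNat.one_ne_ofNat,
    OfNat.ofNat_ne_zero, OfNat.ofNat_ne_one, zero_ne_one, Nat.reduceEqDiff] at hs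
  obtain ⟨h1, h2, h3, h4, h5, h6, h7, h8, h9, h10, h11⟩ := hs
  exact ⟨h1, h2, h3, h4, h5, h6, h7, h8, h9, h10, h11⟩

theorem sat_torsion {k : ℕ} (hs : Sat (omega 𝒮 h) (torsion k) v V) :
    ∀ a ∈ V (4 * k), ∃ n, 0 < n ∧ ∃ F, TorSem (V (4 * k + 1)) (V (4 * k + 3)) F a n := by
  have e1 : 4 * k + 1 ≠ 100 := by omega
  have e2 : 4 * k + 3 ≠ 100 := by omega
  simp only [torsion, conj, allNs, exNs, List.foldr_cons, List.foldr_nil, inD, plus, isZero,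
    Sat, sat_imp, sat_exN, sat_exS, eval_omega, evN_pair, evN, Function.update_self, ne_eq,
    not_false_eq_true, Function.update_of_ne, OfNat.zero_ne_ofNat, OfNat.one_ne_ofNat,
    zero_ne_one, Nat.reduceEqDiff, e1, e2] at hs
  intro a ha
  obtain ⟨n, hn, F, _, h1, h2, h3, h4⟩ := hs a ha
  exact ⟨n, hn, F, h1, h2, h3, h4⟩

theorem sat_dirSum {i j k : ℕ} (hs : Sat (omega 𝒮 h) (dirSum i j k) v V) :
    SumSem (V (4 * i)) (V (4 * i + 1)) (V (4 * j)) (V (4 * j + 1)) (V (4 * k))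
      (V (4 * k + 1)) := by
  simp only [dirSum, conj, allNs, exNs, List.foldr_cons, List.foldr_nil, inD, plus, minus, isZero,
    Sat, sat_iff, sat_exN, eval_omega, evN_pair, evN, Function.update_self, ne_eq,
    not_false_eq_true, Function.update_of_ne, OfNat.zero_ne_ofNat, OfNat.one_ne_ofNat,
    OfNat.ofNat_ne_zero, OfNat.ofNat_ne_one, zero_ne_one, Nat.reduceEqDiff] at hs
  exact ⟨hs.1, hs.2.1⟩

/-- The matrix of `iso`. -/
def isoBody (i j : ℕ) : Formula :=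
  let a : Term := .tvar 0
  let b : Term := .tvar 1
  let c : Term := .tvar 2
  let a' : Term := .tvar 3
  let b' : Term := .tvar 4
  let c' : Term := .tvar 5
  let n : Term := .tvar 6
  let F : ℕ := 100
  (conj [
    allNs [6] (.fimp (.fmem n F) (exNs [0, 3] (conj [inD i a, inD j a', .feq n (pair a a')]))),
    allNs [0] (.fimp (inD i a) (exNs [3] (.fmem (pair a a') F))),
    allNs [3] (.fimp (inD j a') (exNs [0] (.fmem (pair a a') F))),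
    allNs [0, 3, 1, 4] (.fimp (.fand (.fmem (pair a a') F) (.fmem (pair b b') F))
      (.fiff (.feq a b) (.feq a' b'))),
    allNs [0, 1, 2, 3, 4, 5] (.fimp (conj [.fmem (pair a a') F, .fmem (pair b b') F,
      .fmem (pair c c') F, plus i a b c]) (plus j a' b' c'))])

theorem iso_eq (i j : ℕ) : iso i j = .fexS 100 (isoBody i j) := rfl

theorem arithmetical_isoBody (i j : ℕ) : Arithmetical (isoBody i j) := by
  simp [isoBody, Arithmetical, Formula.fiff, Formula.fimp, Formula.fexN, conj, allNs, exNs, inD, plus]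

theorem satN_isoBody {i j : ℕ} (hi : i < 25) (hj : j < 25) {F : Set ℕ} :
    SatN (isoBody i j) v (Function.update V 100 F) ↔
    IsoSem (V (4 * i)) (V (4 * i + 1)) (V (4 * j)) (V (4 * j + 1)) F := by
  have e1 : 4 * i + 1 ≠ 100 := by omega
  have e2 : 4 * j + 1 ≠ 100 := by omega
  have e3 : 4 * i ≠ 100 := by omega
  have e4 : 4 * j ≠ 100 := by omega
  simp only [isoBody, conj, allNs, exNs, List.foldr_cons, List.foldr_nil, inD, plus,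
    SatN, satN_imp, satN_iff, satN_exN, evN_pair, evN, Function.update_self, ne_eq,
    not_false_eq_true, Function.update_of_ne, OfNat.zero_ne_ofNat, OfNat.one_ne_ofNat,
    OfNat.ofNat_ne_zero, OfNat.ofNat_ne_one, zero_ne_one, Nat.reduceEqDiff, e1, e2, e3, e4]
  rfl

theorem sat_iso {i j : ℕ} (hi : i < 25) (hj : j < 25) (hs : Sat (omega 𝒮 h) (iso i j) v V) :
    ∃ F, IsoSem (V (4 * i)) (V (4 * i + 1)) (V (4 * j)) (V (4 * j + 1)) F := by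
  rw [iso_eq, sat_exS] at hs
  obtain ⟨F, _, hF⟩ := hs
  exact ⟨F, (satN_isoBody hi hj).1 ((sat_omega (arithmetical_isoBody i j) _ _).1 hF)⟩

theorem sat_iso_of (hβ : Beta 𝒮) (hV : ∀ i, V i ∈ 𝒮) {i j : ℕ} (hi : i < 25) (hj : j < 25)
    (hF : ∃ F, IsoSem (V (4 * i)) (V (4 * i + 1)) (V (4 * j)) (V (4 * j + 1)) F) :
    Sat (omega 𝒮 h) (iso i j) v V := by
  rw [iso_eq, sat_exS]
  obtain ⟨F, hF⟩ := hF
  obtain ⟨Y, hY, hY'⟩ := hβ (isoBody i j) (arithmetical_isoBody i j) 100 v V hV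
    ⟨F, (satN_isoBody hi hj).2 hF⟩
  exact ⟨Y, hY, (sat_omega (arithmetical_isoBody i j) _ _).2 hY'⟩

theorem update_mem {𝒮 : Set (Set ℕ)} {V : ℕ → Set ℕ} (hV : ∀ i, V i ∈ 𝒮) {X : ℕ} {A : Set ℕ}
    (hA : A ∈ 𝒮) : ∀ i, Function.update V X A i ∈ 𝒮 := by
  intro i
  by_cases h : i = X
  · subst h
    rw [Function.update_self]
    exact hA
  · rw [Function.update_of_ne h]
    exact hV i

theorem sat_exGroup {k : ℕ} {φ : Formula} (hs : Sat (omega 𝒮 h) (exGroup k φ) v V) :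
    ∃ A B C E, Sat (omega 𝒮 h) φ v (Function.update (Function.update (Function.update
      (Function.update V (4 * k) A) (4 * k + 1) B) (4 * k + 2) C) (4 * k + 3) E) := by
  simp only [exGroup, sat_exS] at hs
  obtain ⟨A, _, B, _, C, _, E, _, hs⟩ := hs
  exact ⟨A, B, C, E, hs⟩

/-- Coded torsion groups as Lean groups. -/
theorem exists_rep {k : ℕ} (h1 : Sat (omega 𝒮 h) (abGroup k) v V)
    (h2 : Sat (omega 𝒮 h) (torsion k) v V) :
    ∃ (G : Type) (_ : AddCommGroup G) (_ : Countable G) (_ : Rep G (V (4 * k)) (V (4 * k + 1))),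
      ∀ g : G, ∃ n : ℕ, 0 < n ∧ n • g = 0 := by
  obtain ⟨G, i1, i2, R, hR⟩ := (sat_abGroup k h1).exists_rep
  refine ⟨G, i1, i2, R, fun g => ?_⟩
  obtain ⟨n, hn, F, hF⟩ := sat_torsion h2 (R.c g) ((R.dom _).2 ⟨g, rfl⟩)
  exact ⟨n, hn, hF.nsmul R hR⟩

theorem sat_statementA (hβ : Beta 𝒮) (hV : ∀ i, V i ∈ 𝒮) :
    Sat (omega 𝒮 h) statementA v V := by
  intro D0 hD0 A0 hA0 N0 hN0 Z0 hZ0 D1 hD1 A1 hA1 N1 hN1 Z1 hZ1
  have hV' := update_mem (update_mem (update_mem (update_mem (update_mem (update_mem (update_mem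
    (update_mem hV hD0 (X := 4 * 0)) hA0 (X := 4 * 0 + 1)) hN0 (X := 4 * 0 + 2)) hZ0
    (X := 4 * 0 + 3)) hD1 (X := 4 * 1)) hA1 (X := 4 * 1 + 1)) hN1 (X := 4 * 1 + 2)) hZ1
    (X := 4 * 1 + 3)
  revert hV'
  generalize Function.update (Function.update (Function.update (Function.update (Function.update
    (Function.update (Function.update (Function.update V (4 * 0) D0) (4 * 0 + 1) A0) (4 * 0 + 2) N0)
    (4 * 0 + 3) Z0) (4 * 1) D1) (4 * 1 + 1) A1) (4 * 1 + 2) N1) (4 * 1 + 3) Z1 = V'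
  intro hV'
  rw [sat_imp]
  rintro ⟨h1, h2, h3, h4, h5⟩
  apply sat_iso_of hβ hV' (by norm_num) (by norm_num)
  obtain ⟨G, _, _, R, tG⟩ := exists_rep h1 h2
  obtain ⟨H, _, _, S, tH⟩ := exists_rep h3 h4
  obtain ⟨D2, A2, N2, Z2, h6⟩ := sat_exGroup h5
  obtain ⟨D3, A3, N3, Z3, h7, h8, h9⟩ := sat_exGroup h6
  have e1 := sat_dirSum h7
  have e2 := sat_dirSum h8
  obtain ⟨F, hF⟩ := sat_iso (by norm_num) (by norm_num) h9
  simp only [Nat.reduceMul, Nat.reduceAdd, Function.update_self, ne_eq, not_false_eq_true,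
    Function.update_of_ne, OfNat.zero_ne_ofNat, OfNat.one_ne_ofNat, Nat.reduceEqDiff]
    at e1 e2 hF
  have R' : Rep G (V' 0) (V' 1) := R
  have S' : Rep H (V' 4) (V' 5) := S
  obtain ⟨e⟩ := hF.equiv (e1.rep R' R') (e2.rep S' S')
  obtain ⟨e'⟩ := test_one tG tH e
  exact IsoSem.of_equiv R S e'

theorem sat_statementB (hβ : Beta 𝒮) (hV : ∀ i, V i ∈ 𝒮) :
    Sat (omega 𝒮 h) statementB v V := by
  intro D0 hD0 A0 hA0 N0 hN0 Z0 hZ0 D1 hD1 A1 hA1 N1 hN1 Z1 hZ1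
  have hV' := update_mem (update_mem (update_mem (update_mem (update_mem (update_mem (update_mem
    (update_mem hV hD0 (X := 4 * 0)) hA0 (X := 4 * 0 + 1)) hN0 (X := 4 * 0 + 2)) hZ0
    (X := 4 * 0 + 3)) hD1 (X := 4 * 1)) hA1 (X := 4 * 1 + 1)) hN1 (X := 4 * 1 + 2)) hZ1
    (X := 4 * 1 + 3)
  revert hV'
  generalize Function.update (Function.update (Function.update (Function.update (Function.update
    (Function.update (Function.update (Function.update V (4 * 0) D0) (4 * 0 + 1) A0) (4 * 0 + 2) N0)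
    (4 * 0 + 3) Z0) (4 * 1) D1) (4 * 1 + 1) A1) (4 * 1 + 2) N1) (4 * 1 + 3) Z1 = V'
  intro hV'
  rw [sat_imp]
  rintro ⟨h1, h2, h3, h4, h5, h5'⟩
  apply sat_iso_of hβ hV' (by norm_num) (by norm_num)
  obtain ⟨G, _, _, R, tG⟩ := exists_rep h1 h2
  obtain ⟨H, _, _, S, tH⟩ := exists_rep h3 h4
  have R' : Rep G (V' 0) (V' 1) := R
  have S' : Rep H (V' 4) (V' 5) := S
  -- `G` is a direct summand of `H`
  obtain ⟨D2, A2, N2, Z2, h6⟩ := sat_exGroup h5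
  obtain ⟨D3, A3, N3, Z3, h7, h8, h9⟩ := sat_exGroup h6
  obtain ⟨K, _, _, T, _⟩ := (sat_abGroup 2 h7).exists_rep
  have e1 := sat_dirSum h8
  obtain ⟨F, hF⟩ := sat_iso (by norm_num) (by norm_num) h9
  simp only [Nat.reduceMul, Nat.reduceAdd, Function.update_self, ne_eq, not_false_eq_true,
    Function.update_of_ne, OfNat.zero_ne_ofNat, OfNat.one_ne_ofNat, Nat.reduceEqDiff]
    at e1 hF T
  obtain ⟨e⟩ := hF.equiv S' (e1.rep R' T)
  -- `H` is a direct summand of `G`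
  obtain ⟨D2, A2, N2, Z2, h6⟩ := sat_exGroup h5'
  obtain ⟨D3, A3, N3, Z3, h7, h8, h9⟩ := sat_exGroup h6
  obtain ⟨L, _, _, T', _⟩ := (sat_abGroup 2 h7).exists_rep
  have e1 := sat_dirSum h8
  obtain ⟨F, hF⟩ := sat_iso (by norm_num) (by norm_num) h9
  simp only [Nat.reduceMul, Nat.reduceAdd, Function.update_self, ne_eq, not_false_eq_true,
    Function.update_of_ne, OfNat.zero_ne_ofNat, OfNat.one_ne_ofNat, Nat.reduceEqDiff]
    at e1 hF T'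
  obtain ⟨f⟩ := hF.equiv R' (e1.rep S' T')
  obtain ⟨e'⟩ := test_two tG tH e f
  exact IsoSem.of_equiv R S e'

end eval

end Pool.Agent.Lib.MP_660a49_lc
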