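import Mathlib

/-!
# The language of second-order arithmetic, RCA_0, Pi^1_1-CA_0 and the two test statements

Number variables and set variables are indexed by natural numbers.  All definitions follow Simpson's
book on subsystems of second-order arithmetic.
-/

namespace Pool.Agent.Lib.MP_660a49_lc

/-- Number terms of `L_2`. -/
inductive Term
  | tvar : ℕ → Term
  | tzero : Term
  | tone : Term
  | tadd : Term → Term → Term
  | tmul : Term → Term → Term
  deriving Countable

/-- Formulas of `L_2`: `fmem t X` is `t ∈ X`, `fallN x φ` is `∀ x φ` for the number variable `x` and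
`fallS X φ` is `∀ X φ` for the set variable `X`. -/
inductive Formula
  | feq : Term → Term → Formula
  | flt : Term → Term → Formula
  | fmem : Term → ℕ → Formula
  | fneg : Formula → Formula
  | fand : Formula → Formula → Formula
  | fallN : ℕ → Formula → Formula
  | fallS : ℕ → Formula → Formula
  deriving Countable

/-- `L_2`-structures (Henkin structures): a first-order part and a nonempty family of subsets. -/
structure Model where
  Num : Type
  mzero : Num
  mone : Num
  madd : Num → Num → Num
  mmul : Num → Num → Num
  mlt : Num → Num → Prop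
  Sets : Set (Set Num)
  sets_nonempty : Sets.Nonempty

/-- The omega-model with second-order part `𝒮`: the first-order part is the standard one. -/
abbrev omega (𝒮 : Set (Set ℕ)) (h : 𝒮.Nonempty) : Model where
  Num := ℕ
  mzero := 0
  mone := 1
  madd := fun a b => a + b
  mmul := fun a b => a * b
  mlt := fun a b => a < b
  Sets := 𝒮
  sets_nonempty := h

/-- Value of a term. -/
def Term.teval (M : Model) (v : ℕ → M.Num) : Term → M.Num
  | .tvar x => v x
  | .tzero => M.mzero
  | .tone => M.mone
  | .tadd s t => M.madd (s.teval M v) (t.teval M v)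
  | .tmul s t => M.mmul (s.teval M v) (t.teval M v)

/-- Tarski's truth definition. -/
def Sat (M : Model) : Formula → (ℕ → M.Num) → (ℕ → Set M.Num) → Prop
  | .feq s t, v, _ => s.teval M v = t.teval M v
  | .flt s t, v, _ => M.mlt (s.teval M v) (t.teval M v)
  | .fmem t X, v, V => t.teval M v ∈ V X
  | .fneg φ, v, V => ¬ Sat M φ v V
  | .fand φ ψ, v, V => Sat M φ v V ∧ Sat M ψ v V
  | .fallN x φ, v, V => ∀ a : M.Num, Sat M φ (Function.update v x a) V
  | .fallS X φ, v, V => ∀ A ∈ M.Sets, Sat M φ v (Function.update V X A)

/-- `M` satisfies (the universal closures of) all formulas of `T`. -/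
def Models (M : Model) (T : Set Formula) : Prop :=
  ∀ φ ∈ T, ∀ (v : ℕ → M.Num) (V : ℕ → Set M.Num), (∀ i, V i ∈ M.Sets) → Sat M φ v V

namespace Formula

/-- Implication. -/
def fimp (φ ψ : Formula) : Formula := fneg (fand φ (fneg ψ))

/-- Equivalence. -/
def fiff (φ ψ : Formula) : Formula := fand (fimp φ ψ) (fimp ψ φ)

/-- Existential number quantifier. -/
def fexN (x : ℕ) (φ : Formula) : Formula := fneg (fallN x (fneg φ))

/-- Existential set quantifier. -/
def fexS (X : ℕ) (φ : Formula) : Formula := fneg (fallS X (fneg φ))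

end Formula

/-- The variable `x` occurs in the term. -/
def Term.Occurs (x : ℕ) : Term → Prop
  | .tvar y => x = y
  | .tzero => False
  | .tone => False
  | .tadd s t => s.Occurs x ∨ t.Occurs x
  | .tmul s t => s.Occurs x ∨ t.Occurs x

/-- Bounded (`Σ^0_0`) formulas: all quantifiers are of the form `∀ x < t` or `∃ x < t`. -/
inductive Bounded : Formula → Prop
  | beq (s t : Term) : Bounded (.feq s t)
  | blt (s t : Term) : Bounded (.flt s t)
  | bmem (t : Term) (X : ℕ) : Bounded (.fmem t X)
  | bneg {φ : Formula} : Bounded φ → Bounded (.fneg φ)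
  | band {φ ψ : Formula} : Bounded φ → Bounded ψ → Bounded (.fand φ ψ)
  | ball {x : ℕ} {t : Term} {φ : Formula} : ¬ t.Occurs x → Bounded φ →
      Bounded (.fallN x (.fimp (.flt (.tvar x) t) φ))
  | bex {x : ℕ} {t : Term} {φ : Formula} : ¬ t.Occurs x → Bounded φ →
      Bounded (.fexN x (.fand (.flt (.tvar x) t) φ))

/-- Arithmetical formulas: no set quantifier. -/
def Arithmetical : Formula → Prop
  | .feq _ _ => True
  | .flt _ _ => True
  | .fmem _ _ => True
  | .fneg φ => Arithmetical φ
  | .fand φ ψ => Arithmetical φ ∧ Arithmetical ψ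
  | .fallN _ φ => Arithmetical φ
  | .fallS _ _ => False

/-- `Σ^0_1` formulas. -/
def Sigma01 (φ : Formula) : Prop := ∃ x θ, Bounded θ ∧ φ = .fexN x θ

/-- `Π^0_1` formulas. -/
def Pi01 (φ : Formula) : Prop := ∃ x θ, Bounded θ ∧ φ = .fallN x θ

/-- `Π^1_1` formulas. -/
def Pi11 (φ : Formula) : Prop := ∃ X θ, Arithmetical θ ∧ φ = .fallS X θ

/-- The set variable `X` is free in the formula. -/
def FreeS (X : ℕ) : Formula → Prop
  | .feq _ _ => False
  | .flt _ _ => False
  | .fmem _ Y => X = Y
  | .fneg φ => FreeS X φ
  | .fand φ ψ => FreeS X φ ∨ FreeS X ψ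
  | .fallN _ φ => FreeS X φ
  | .fallS Y φ => X ≠ Y ∧ FreeS X φ

/-- Substitution of a term for a variable in a term. -/
def Term.tsubst (x : ℕ) (r : Term) : Term → Term
  | .tvar y => if y = x then r else .tvar y
  | .tzero => .tzero
  | .tone => .tone
  | .tadd s t => .tadd (Term.tsubst x r s) (Term.tsubst x r t)
  | .tmul s t => .tmul (Term.tsubst x r s) (Term.tsubst x r t)

/-- Substitution of a term for the free occurrences of a number variable.  It is only used for the
terms `0` and `x + 1`, for which no variable can be captured. -/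
def fsubst (x : ℕ) (r : Term) : Formula → Formula
  | .feq s t => .feq (Term.tsubst x r s) (Term.tsubst x r t)
  | .flt s t => .flt (Term.tsubst x r s) (Term.tsubst x r t)
  | .fmem t X => .fmem (Term.tsubst x r t) X
  | .fneg φ => .fneg (fsubst x r φ)
  | .fand φ ψ => .fand (fsubst x r φ) (fsubst x r ψ)
  | .fallN y φ => if y = x then .fallN y φ else .fallN y (fsubst x r φ)
  | .fallS X φ => .fallS X (fsubst x r φ)

/-- The induction axiom for `φ` with respect to the number variable `x`. -/
def induction (x : ℕ) (φ : Formula) : Formula :=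
  .fimp (.fand (fsubst x .tzero φ) (.fallN x (.fimp φ (fsubst x (.tadd (.tvar x) .tone) φ)))) (.fallN x φ)

/-- The comprehension axiom `∃ X ∀ x (x ∈ X ↔ φ)`. -/
def comprehension (X x : ℕ) (φ : Formula) : Formula :=
  .fexS X (.fallN x (.fiff (.fmem (.tvar x) X) φ))

/-- The basic axioms of second-order arithmetic. -/
def basic : Set Formula :=
  let m : Term := .tvar 0
  let n : Term := .tvar 1
  { .fneg (.feq (.tadd n .tone) .tzero),
    .fimp (.feq (.tadd m .tone) (.tadd n .tone)) (.feq m n),
    .feq (.tadd m .tzero) m,
    .feq (.tadd m (.tadd n .tone)) (.tadd (.tadd m n) .tone),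
    .feq (.tmul m .tzero) .tzero,
    .feq (.tmul m (.tadd n .tone)) (.tadd (.tmul m n) m),
    .fneg (.flt m .tzero),
    .fiff (.flt m (.tadd n .tone)) (.fneg (.fand (.fneg (.flt m n)) (.fneg (.feq m n)))) }

/-- `RCA_0`: basic axioms, `Σ^0_1` induction and `Δ^0_1` comprehension. -/
def RCA0 : Set Formula :=
  basic ∪ {ψ | ∃ x φ, Sigma01 φ ∧ ψ = induction x φ} ∪
    {ψ | ∃ X x φ φ', Sigma01 φ ∧ Pi01 φ' ∧ ¬ FreeS X φ ∧
      ψ = .fimp (.fallN x (.fiff φ φ')) (comprehension X x φ)}

/-- `Π^1_1-CA_0`: basic axioms, the induction axiom for sets and `Π^1_1` comprehension. -/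
def Pi11CA0 : Set Formula :=
  basic ∪ {induction 0 (.fmem (.tvar 0) 0)} ∪
    {ψ | ∃ X x φ, Pi11 φ ∧ ¬ FreeS X φ ∧ ψ = comprehension X x φ}

/-! ### Countable abelian groups coded by sets

The `k`-th group is coded by the four set variables `4 k`, `4 k + 1`, `4 k + 2`, `4 k + 3`: its
domain, the graph of addition, the graph of the inverse, and the set whose only element is the
identity.  Variables `a`, `b`, `c`, `a'`, `b'`, `c'`, `n` below are number variables. -/

/-- The pairing term `(s + t)^2 + s`. -/
def pair (s t : Term) : Term := .tadd (.tmul (.tadd s t) (.tadd s t)) s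

/-- `s` is in the domain of the `k`-th group. -/
def inD (k : ℕ) (s : Term) : Formula := .fmem s (4 * k)

/-- `s + t = r` in the `k`-th group. -/
def plus (k : ℕ) (s t r : Term) : Formula := .fmem (pair (pair s t) r) (4 * k + 1)

/-- `-s = t` in the `k`-th group. -/
def minus (k : ℕ) (s t : Term) : Formula := .fmem (pair s t) (4 * k + 2)

/-- `s` is the identity of the `k`-th group. -/
def isZero (k : ℕ) (s : Term) : Formula := .fmem s (4 * k + 3)

/-- Iterated conjunction. -/
def conj : List Formula → Formula
  | [] => .feq .tzero .tzero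
  | [φ] => φ
  | φ :: l => .fand φ (conj l)

/-- Iterated universal number quantification. -/
def allNs (l : List ℕ) (φ : Formula) : Formula := l.foldr .fallN φ

/-- Iterated existential number quantification. -/
def exNs (l : List ℕ) (φ : Formula) : Formula := l.foldr .fexN φ

/-- The `k`-th group is an abelian group. -/
def abGroup (k : ℕ) : Formula :=
  let a : Term := .tvar 0
  let b : Term := .tvar 1
  let c : Term := .tvar 2
  let d : Term := .tvar 3
  let e : Term := .tvar 4
  let f : Term := .tvar 5
  let n : Term := .tvar 6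
  conj [
    -- addition is a function from `D × D` to `D`
    allNs [6] (.fimp (.fmem n (4 * k + 1))
      (exNs [0, 1, 2] (conj [inD k a, inD k b, inD k c, .feq n (pair (pair a b) c)]))),
    allNs [0, 1] (.fimp (.fand (inD k a) (inD k b)) (exNs [2] (plus k a b c))),
    allNs [0, 1, 2, 3] (.fimp (.fand (plus k a b c) (plus k a b d)) (.feq c d)),
    -- the inverse is a function from `D` to `D`
    allNs [6] (.fimp (.fmem n (4 * k + 2))
      (exNs [0, 1] (conj [inD k a, inD k b, .feq n (pair a b)]))),
    allNs [0] (.fimp (inD k a) (exNs [1] (minus k a b))),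
    allNs [0, 1, 2] (.fimp (.fand (minus k a b) (minus k a c)) (.feq b c)),
    -- there is exactly one identity
    exNs [0] (.fand (inD k a) (allNs [1] (.fiff (isZero k b) (.feq b a)))),
    -- associativity, commutativity, identity, inverse
    allNs [0, 1, 2, 3, 4, 5] (.fimp (conj [plus k a b d, plus k d c e, plus k b c f])
      (plus k a f e)),
    allNs [0, 1, 2] (.fimp (plus k a b c) (plus k b a c)),
    allNs [0, 1] (.fimp (.fand (inD k a) (isZero k b)) (plus k a b a)),
    allNs [0, 1, 2] (.fimp (.fand (minus k a b) (isZero k c)) (plus k a b c))]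

/-- Every element `a` of the `k`-th group has finite order: there are `n > 0` and a function `F`
(the set variable `100`) with `F(0) = 0`, `F(i + 1) = F(i) + a` for all `i`, and `F(n) = 0`. -/
def torsion (k : ℕ) : Formula :=
  let a : Term := .tvar 0
  let n : Term := .tvar 1
  let i : Term := .tvar 2
  let b : Term := .tvar 3
  let c : Term := .tvar 4
  let F : ℕ := 100
  allNs [0] (.fimp (inD k a) (exNs [1] (.fand (.flt .tzero n) (.fexS F (conj [
    allNs [2, 3, 4] (.fimp (.fand (.fmem (pair i b) F) (.fmem (pair i c) F)) (.feq b c)),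
    allNs [3] (.fimp (isZero k b) (.fmem (pair .tzero b) F)),
    allNs [2, 3, 4] (.fimp (.fand (.fmem (pair i b) F) (plus k b a c))
      (.fmem (pair (.tadd i .tone) c) F)),
    allNs [3] (.fimp (isZero k b) (.fmem (pair n b) F))])))))

/-- The `k`-th group is the direct sum of the `i`-th and the `j`-th group. -/
def dirSum (i j k : ℕ) : Formula :=
  let a : Term := .tvar 0
  let b : Term := .tvar 1
  let c : Term := .tvar 2
  let a' : Term := .tvar 3
  let b' : Term := .tvar 4
  let c' : Term := .tvar 5
  let n : Term := .tvar 6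
  conj [
    allNs [6] (.fiff (.fmem n (4 * k))
      (exNs [0, 3] (conj [inD i a, inD j a', .feq n (pair a a')]))),
    allNs [6] (.fiff (.fmem n (4 * k + 1))
      (exNs [0, 1, 2, 3, 4, 5] (conj [plus i a b c, plus j a' b' c',
        .feq n (pair (pair (pair a a') (pair b b')) (pair c c'))]))),
    allNs [6] (.fiff (.fmem n (4 * k + 2))
      (exNs [0, 1, 3, 4] (conj [minus i a b, minus j a' b',
        .feq n (pair (pair a a') (pair b b'))]))),
    allNs [6] (.fiff (.fmem n (4 * k + 3))
      (exNs [0, 3] (conj [isZero i a, isZero j a', .feq n (pair a a')])))]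

/-- The `i`-th and the `j`-th group are isomorphic: there is (the graph of) an isomorphism `F` (the
set variable `100`). -/
def iso (i j : ℕ) : Formula :=
  let a : Term := .tvar 0
  let b : Term := .tvar 1
  let c : Term := .tvar 2
  let a' : Term := .tvar 3
  let b' : Term := .tvar 4
  let c' : Term := .tvar 5
  let n : Term := .tvar 6
  let F : ℕ := 100
  .fexS F (conj [
    allNs [6] (.fimp (.fmem n F) (exNs [0, 3] (conj [inD i a, inD j a', .feq n (pair a a')]))),
    allNs [0] (.fimp (inD i a) (exNs [3] (.fmem (pair a a') F))),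
    allNs [3] (.fimp (inD j a') (exNs [0] (.fmem (pair a a') F))),
    allNs [0, 3, 1, 4] (.fimp (.fand (.fmem (pair a a') F) (.fmem (pair b b') F))
      (.fiff (.feq a b) (.feq a' b'))),
    allNs [0, 1, 2, 3, 4, 5] (.fimp (conj [.fmem (pair a a') F, .fmem (pair b b') F,
      .fmem (pair c c') F, plus i a b c]) (plus j a' b' c'))])

/-- Universal quantification over (codes for) the `k`-th group. -/
def allGroup (k : ℕ) (φ : Formula) : Formula :=
  .fallS (4 * k) (.fallS (4 * k + 1) (.fallS (4 * k + 2) (.fallS (4 * k + 3) φ)))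

/-- Existential quantification over (codes for) the `k`-th group. -/
def exGroup (k : ℕ) (φ : Formula) : Formula :=
  .fexS (4 * k) (.fexS (4 * k + 1) (.fexS (4 * k + 2) (.fexS (4 * k + 3) φ)))

/-- The `i`-th group is a direct summand of the `j`-th: for some abelian group (number `2`), the
`j`-th group is isomorphic to the direct sum (number `3`) of the `i`-th group and that group. -/
def summand (i j : ℕ) : Formula :=
  exGroup 2 (exGroup 3 (conj [abGroup 2, dirSum i 2 3, iso j 3]))

/-- Statement (a): for all countable torsion abelian groups `G` (number `0`) and `H` (number `1`), if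
`G ⊕ G ≅ H ⊕ H` then `G ≅ H`. -/
def statementA : Formula :=
  allGroup 0 (allGroup 1 (.fimp
    (conj [abGroup 0, torsion 0, abGroup 1, torsion 1,
      exGroup 2 (exGroup 3 (conj [dirSum 0 0 2, dirSum 1 1 3, iso 2 3]))])
    (iso 0 1)))

/-- Statement (b): for all countable torsion abelian groups `G` (number `0`) and `H` (number `1`), if
each of them is a direct summand of the other then `G ≅ H`. -/
def statementB : Formula :=
  allGroup 0 (allGroup 1 (.fimp
    (conj [abGroup 0, torsion 0, abGroup 1, torsion 1, summand 0 1, summand 1 0])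
    (iso 0 1)))

end Pool.Agent.Lib.MP_660a49_lc
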