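import Pool.Agent.Lib.MP_660a49_lc.Coding

/-!
# Sanity checks

The full standard model is a model of `RCA_0`, of `Π^1_1-CA_0` and of both test statements, so none
of these theories is inconsistent.
-/

namespace Pool.Agent.Lib.MP_660a49_lc

theorem beta_univ : Beta Set.univ := by
  rintro θ _ X v V _ ⟨Y, hY⟩
  exact ⟨Y, Set.mem_univ _, hY⟩

/-- The full standard model satisfies `RCA_0` and the two test statements. -/
theorem full_models :
    Models (omega Set.univ ⟨∅, Set.mem_univ _⟩) (RCA0 ∪ {statementA, statementB}) := by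
  rintro φ (hφ | rfl | rfl) v V hV
  · exact models_RCA0 _ beta_univ φ hφ v V hV
  · exact sat_statementA beta_univ hV
  · exact sat_statementB beta_univ hV

/-- The full standard model satisfies `Π^1_1-CA_0`. -/
theorem full_models_Pi11CA0 : Models (omega Set.univ ⟨∅, Set.mem_univ _⟩) Pi11CA0 := by
  rintro φ ((hφ | rfl) | ⟨X, x, ψ, _, hX, rfl⟩) v V hV
  · exact models_RCA0 _ beta_univ φ (Or.inl (Or.inl hφ)) v V hV
  · exact sat_induction _ _ _ _ _ _
  · rw [comprehension, sat_exS]
    refine ⟨{n | Sat (omega Set.univ ⟨∅, Set.mem_univ _⟩) ψ (Function.update v x n) V},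
      Set.mem_univ _, ?_⟩
    intro n
    rw [sat_iff, sat_update_of_not_freeS _ ψ hX]
    simp [Sat, Term.teval]

end Pool.Agent.Lib.MP_660a49_lc
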