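import Mathlib

/-!
# Ulm's theorem for countable abelian p-groups (not necessarily reduced)

Back-and-forth proof in the style of Kaplansky and Mackey.  The Ulm invariants are recorded by the
indices `(p^(α+1) G)[p]` in `(p^α G)[p]` (as natural numbers, `0` for an infinite index), and the
divisible part by the cardinality of its socle.
-/

open Set

namespace Pool.Agent.Lib.MP_660a49_lc

/-- The transfinite chain `p^α G`. -/
noncomputable def U (p : ℕ) (G : Type) [AddCommGroup G] (α : Ordinal.{0}) : AddSubgroup G :=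
  ⨅ β : Set.Iio α, (U p G β.1).map (nsmulAddMonoidHom p)
termination_by α
decreasing_by exact β.2

section basic

variable {p : ℕ} {G : Type} [AddCommGroup G] {α β : Ordinal.{0}}

theorem mem_U {x : G} : x ∈ U p G α ↔ ∀ β < α, ∃ y ∈ U p G β, p • y = x := by
  rw [U]
  simp only [AddSubgroup.mem_iInf, AddSubgroup.mem_map, nsmulAddMonoidHom_apply, Subtype.forall,
    Set.mem_Iio]

theorem U_anti (h : α ≤ β) : U p G β ≤ U p G α := by
  intro x hx
  rw [mem_U] at hx ⊢
  exact fun γ hγ => hx γ (hγ.trans_le h)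

theorem mem_U_succ {x : G} : x ∈ U p G (Order.succ α) ↔ ∃ y ∈ U p G α, p • y = x := by
  constructor
  · intro hx
    exact mem_U.1 hx α (Order.lt_succ α)
  · rintro ⟨y, hy, rfl⟩
    rw [mem_U]
    intro β hβ
    exact ⟨y, U_anti (Order.lt_succ_iff.1 hβ) hy, rfl⟩

theorem smul_mem_U_succ {x : G} (hx : x ∈ U p G α) : p • x ∈ U p G (Order.succ α) :=
  mem_U_succ.2 ⟨x, hx, rfl⟩

theorem mem_U_zero (x : G) : x ∈ U p G 0 := by
  rw [mem_U]
  intro β hβ
  exact absurd hβ not_lt_zero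

theorem mem_U_of_isSuccLimit {x : G} (hα : Order.IsSuccLimit α) (h : ∀ β < α, x ∈ U p G β) :
    x ∈ U p G α := by
  rw [mem_U]
  intro β hβ
  exact mem_U_succ.1 (h _ (hα.succ_lt hβ))

theorem exists_height {x : G} (h : ∃ α, x ∉ U p G α) :
    ∃ β, x ∈ U p G β ∧ x ∉ U p G (Order.succ β) := by
  classical
  have hmin := csInf_mem (s := {α : Ordinal.{0} | x ∉ U p G α}) h
  set α := sInf {α : Ordinal.{0} | x ∉ U p G α} with hα
  have hlt : ∀ β < α, x ∈ U p G β := by
    intro β hβ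
    by_contra hcon
    exact absurd (csInf_le' (s := {α : Ordinal.{0} | x ∉ U p G α}) hcon) (not_le.2 hβ)
  rcases Ordinal.zero_or_succ_or_isSuccLimit α with h0 | ⟨β, hβ⟩ | hl
  · exact absurd (by rw [h0]; exact mem_U_zero x) hmin
  · refine ⟨β, hlt β (by rw [← hβ]; exact Order.lt_succ β), ?_⟩
    rw [hβ]
    exact hmin
  · exact absurd (mem_U_of_isSuccLimit hl hlt) hmin

/-- The elements of infinite height. -/
noncomputable def D (p : ℕ) (G : Type) [AddCommGroup G] : AddSubgroup G := ⨅ α, U p G α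

theorem mem_D {x : G} : x ∈ D p G ↔ ∀ α, x ∈ U p G α := by
  rw [D, AddSubgroup.mem_iInf]

theorem exists_stable : ∃ σ, ∀ x ∈ U p G σ, ∀ α, x ∈ U p G α := by
  have h := not_injective_of_ordinal (U p G)
  rw [Function.Injective] at h
  push Not at h
  obtain ⟨a, b, hab, hne⟩ := h
  have key : ∀ a b : Ordinal.{0}, U p G a = U p G b → a < b →
      ∃ σ, ∀ x ∈ U p G σ, ∀ α, x ∈ U p G α := by
    intro a b hab hlt
    refine ⟨a, ?_⟩
    have hsucc : ∀ x ∈ U p G a, ∃ y ∈ U p G a, p • y = x := by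
      intro x hx
      rw [hab] at hx
      exact mem_U_succ.1 (U_anti (Order.succ_le_of_lt hlt) hx)
    intro x hx α
    induction α using WellFoundedLT.induction generalizing x with
    | ind α ih =>
      rw [mem_U]
      intro β hβ
      obtain ⟨y, hy, hyx⟩ := hsucc x hx
      exact ⟨y, ih β hβ y hy, hyx⟩
  rcases lt_or_gt_of_ne hne with h | h
  · exact key a b hab h
  · exact key b a hab.symm h

theorem exists_smul_eq_of_mem_D {x : G} (hx : x ∈ D p G) : ∃ y ∈ D p G, p • y = x := by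
  obtain ⟨σ, hσ⟩ := exists_stable (p := p) (G := G)
  rw [mem_D] at hx
  obtain ⟨y, hy, hyx⟩ := mem_U_succ.1 (hx (Order.succ σ))
  exact ⟨y, mem_D.2 (hσ y hy), hyx⟩

/-- The elements killed by `p`. -/
def socle (p : ℕ) (G : Type) [AddCommGroup G] : AddSubgroup G := (nsmulAddMonoidHom p).ker

theorem mem_socle {x : G} : x ∈ socle p G ↔ p • x = 0 := by
  rw [socle, AddMonoidHom.mem_ker, nsmulAddMonoidHom_apply]

/-- The Ulm invariant at `α` as the index of `(p^(α+1) G)[p]` in `(p^α G)[p]`, zero when infinite. -/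
noncomputable def ulm (p : ℕ) (G : Type) [AddCommGroup G] (α : Ordinal.{0}) : ℕ :=
  (U p G (Order.succ α) ⊓ socle p G).relIndex (U p G α ⊓ socle p G)

/-- The size of the socle of the divisible part, zero when infinite. -/
noncomputable def ulmTop (p : ℕ) (G : Type) [AddCommGroup G] : ℕ :=
  Nat.card (D p G ⊓ socle p G : AddSubgroup G)

/-- `G` is an abelian `p`-group. -/
def IsPrimary (p : ℕ) (G : Type) [AddCommGroup G] : Prop := ∀ x : G, ∃ n : ℕ, p ^ n • x = 0

/-- Multiples coprime to `p` do not matter for membership in subgroups of `p`-groups. -/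
theorem zsmul_mem_iff (hp : p.Prime) (hG : IsPrimary p G) (K : AddSubgroup G) {k : ℤ}
    (hk : ¬ (p : ℤ) ∣ k) (y : G) : k • y ∈ K ↔ y ∈ K := by
  constructor
  · intro h
    obtain ⟨n, hn⟩ := hG y
    have hcop : IsCoprime k ((p : ℤ) ^ n) := by
      apply IsCoprime.pow_right
      rw [isCoprime_comm]
      exact ((Nat.prime_iff_prime_int.1 hp).coprime_iff_not_dvd).2 hk
    obtain ⟨a, b, hab⟩ := hcop
    have h1 : y = a • (k • y) := by
      have h2 : ((p : ℤ) ^ n) • y = 0 := by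
        have h3 : ((p : ℤ) ^ n) = ((p ^ n : ℕ) : ℤ) := by push_cast; ring
        rw [h3, natCast_zsmul]
        exact hn
      calc y = (1 : ℤ) • y := (one_zsmul y).symm
        _ = (a * k + b * (p : ℤ) ^ n) • y := by rw [hab]
        _ = a • (k • y) := by rw [add_zsmul, mul_zsmul, mul_zsmul, h2, zsmul_zero, add_zero]
    rw [h1]
    exact K.zsmul_mem h a
  · exact fun h => K.zsmul_mem h k

end basic

section extension

variable {p : ℕ} {G H : Type} [AddCommGroup G] [AddCommGroup H]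

/-- A finite height-preserving partial isomorphism, given by its graph. -/
structure Good (p : ℕ) {G H : Type} [AddCommGroup G] [AddCommGroup H]
    (Γ : AddSubgroup (G × H)) : Prop where
  fin : (Γ : Set (G × H)).Finite
  inj : ∀ q ∈ Γ, q.1 = 0 ↔ q.2 = 0
  ht : ∀ q ∈ Γ, ∀ α, q.1 ∈ U p G α ↔ q.2 ∈ U p H α

theorem good_bot : Good p (⊥ : AddSubgroup (G × H)) where
  fin := by simp
  inj := by
    intro q hq
    rw [AddSubgroup.mem_bot] at hq
    simp [hq]
  ht := by
    intro q hq α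
    rw [AddSubgroup.mem_bot] at hq
    simp [hq, zero_mem]

theorem Good.swap {Γ : AddSubgroup (G × H)} (h : Good p Γ) :
    Good p (Γ.map (AddEquiv.prodComm (M := G) (N := H)).toAddMonoidHom) where
  fin := by
    rw [AddSubgroup.coe_map]
    exact h.fin.image _
  inj := by
    rintro q ⟨r, hr, rfl⟩
    exact (h.inj r hr).symm
  ht := by
    rintro q ⟨r, hr, rfl⟩ α
    exact (h.ht r hr α).symm

/-- The extension step, given a suitable pair. -/
theorem good_extend (hp : p.Prime) (hG : IsPrimary p G) (hH : IsPrimary p H)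
    {Γ : AddSubgroup (G × H)} (hΓ : Good p Γ) {x : G} {w : H}
    (hpx : (p • x, p • w) ∈ Γ) (hx : ∀ q ∈ Γ, q.1 ≠ x) (hw : ∀ q ∈ Γ, q.2 ≠ w)
    (hht : ∀ q ∈ Γ, ∀ α, x + q.1 ∈ U p G α ↔ w + q.2 ∈ U p H α) :
    Good p (Γ ⊔ AddSubgroup.zmultiples (x, w)) := by
  have key : ∀ q ∈ Γ ⊔ AddSubgroup.zmultiples (x, w), q ∈ Γ ∨
      ∃ k : ℤ, ¬ (p : ℤ) ∣ k ∧ ∃ r ∈ Γ, k • q = (x, w) + r := by
    intro q hq
    obtain ⟨y, hy, z, hz, rfl⟩ := AddSubgroup.mem_sup.1 hq
    obtain ⟨n, rfl⟩ := AddSubgroup.mem_zmultiples_iff.1 hz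
    by_cases hn : (p : ℤ) ∣ n
    · left
      obtain ⟨m, rfl⟩ := hn
      refine Γ.add_mem hy ?_
      have : ((p : ℤ) * m) • (x, w) = m • (p • x, p • w) := by
        rw [mul_comm, mul_zsmul]
        congr 1
        ext <;> simp
      rw [this]
      exact Γ.zsmul_mem hpx m
    · right
      have hcop : IsCoprime n (p : ℤ) := by
        rw [isCoprime_comm]
        exact ((Nat.prime_iff_prime_int.1 hp).coprime_iff_not_dvd).2 hn
      obtain ⟨a, b, hab⟩ := hcop
      refine ⟨a, ?_, a • y + (-b) • (p • x, p • w), ?_, ?_⟩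
      · rintro ⟨c, rfl⟩
        have h1 : (p : ℤ) ∣ 1 := by
          rw [← hab]
          exact ⟨c * n + b, by ring⟩
        have h2 := Int.natAbs_dvd_natAbs.2 h1
        simp only [Int.natAbs_natCast, Int.natAbs_one, Nat.dvd_one] at h2
        exact hp.one_lt.ne' h2
      · exact Γ.add_mem (Γ.zsmul_mem hy a) (Γ.zsmul_mem hpx _)
      · have h1 : a * n = 1 - b * p := by linarith
        rw [zsmul_add, ← mul_zsmul, h1]
        ext
        · simp only [Prod.fst_add, Prod.smul_fst, sub_zsmul, one_zsmul, neg_zsmul, mul_zsmul,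
            natCast_zsmul]
          abel
        · simp only [Prod.snd_add, Prod.smul_snd, sub_zsmul, one_zsmul, neg_zsmul, mul_zsmul,
            natCast_zsmul]
          abel
  constructor
  · have hfinz : ((AddSubgroup.zmultiples (x, w) : AddSubgroup (G × H)) : Set (G × H)).Finite := by
      obtain ⟨n, hn⟩ := hG x
      obtain ⟨m, hm⟩ := hH w
      have hfo : IsOfFinAddOrder (x, w) := by
        rw [isOfFinAddOrder_iff_nsmul_eq_zero]
        refine ⟨p ^ (n + m), pow_pos hp.pos _, ?_⟩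
        ext
        · simp only [Prod.smul_fst, Prod.fst_zero]
          rw [pow_add, mul_comm, mul_nsmul', hn, nsmul_zero]
        · simp only [Prod.smul_snd, Prod.snd_zero]
          rw [pow_add, mul_nsmul', hm, nsmul_zero]
      exact hfo.finite_zmultiples
    refine (Set.Finite.image2 (fun a b => a + b) hΓ.fin hfinz).subset ?_
    intro q hq
    obtain ⟨y, hy, z, hz, rfl⟩ := AddSubgroup.mem_sup.1 hq
    exact ⟨y, hy, z, hz, rfl⟩
  · intro q hq
    rcases key q hq with h | ⟨k, hk, r, hr, hkr⟩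
    · exact hΓ.inj q h
    · have h1 : q.1 ≠ 0 := by
        intro h0
        have h2 : (k • q).1 = x + r.1 := by rw [hkr]; rfl
        rw [Prod.smul_fst, h0, zsmul_zero] at h2
        exact hx (-r) (Γ.neg_mem hr) (by
          rw [Prod.fst_neg]
          exact (eq_neg_of_add_eq_zero_left h2.symm).symm)
      have h1' : q.2 ≠ 0 := by
        intro h0
        have h2 : (k • q).2 = w + r.2 := by rw [hkr]; rfl
        rw [Prod.smul_snd, h0, zsmul_zero] at h2
        exact hw (-r) (Γ.neg_mem hr) (by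
          rw [Prod.snd_neg]
          exact (eq_neg_of_add_eq_zero_left h2.symm).symm)
      simp [h1, h1']
  · intro q hq α
    rcases key q hq with h | ⟨k, hk, r, hr, hkr⟩
    · exact hΓ.ht q h α
    · rw [← zsmul_mem_iff hp hG _ hk q.1, ← zsmul_mem_iff hp hH _ hk q.2]
      have h2 : k • q.1 = x + r.1 := by
        have := congrArg Prod.fst hkr
        simpa using this
      have h3 : k • q.2 = w + r.2 := by
        have := congrArg Prod.snd hkr
        simpa using this
      rw [h2, h3]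
      exact hht r hr α

/-- The counting argument at a level `β` of the chain. -/
theorem exists_proper {Γ : AddSubgroup (G × H)} (hΓ : Good p Γ) (β : Ordinal.{0})
    (hinv : ulm p G β = ulm p H β) {v : G} (hv : v ∈ U p G β) (hpv : p • v = 0)
    (hprop : ∀ q ∈ Γ, v + q.1 ∉ U p G (Order.succ β)) :
    ∃ w ∈ U p H β, p • w = 0 ∧ ∀ q ∈ Γ, w + q.2 ∉ U p H (Order.succ β) := by
  by_contra hcon
  push Not at hcon
  set AG := U p G β ⊓ socle p G with hAG
  set BG := U p G (Order.succ β) ⊓ socle p G with hBG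
  set AH := U p H β ⊓ socle p H with hAH
  set BH := U p H (Order.succ β) ⊓ socle p H with hBH
  -- the relation between classes
  let R : AddSubgroup (G × H) :=
    { carrier := {r | r.1 ∈ AG ∧ r.2 ∈ AH ∧ ∃ q ∈ Γ, r.1 + q.1 ∈ U p G (Order.succ β) ∧
        r.2 + q.2 ∈ U p H (Order.succ β)}
      zero_mem' := ⟨zero_mem _, zero_mem _, 0, zero_mem _, by simp [zero_mem], by simp [zero_mem]⟩
      add_mem' := by
        rintro r r' ⟨h1, h2, q, hq, h3, h4⟩ ⟨h1', h2', q', hq', h3', h4'⟩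
        refine ⟨add_mem h1 h1', add_mem h2 h2', q + q', add_mem hq hq', ?_, ?_⟩
        · have := add_mem h3 h3'
          rw [add_add_add_comm] at this
          exact this
        · have := add_mem h4 h4'
          rw [add_add_add_comm] at this
          exact this
      neg_mem' := by
        rintro r ⟨h1, h2, q, hq, h3, h4⟩
        refine ⟨neg_mem h1, neg_mem h2, -q, neg_mem hq, ?_, ?_⟩
        · have := neg_mem h3
          rw [neg_add] at this
          exact this
        · have := neg_mem h4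
          rw [neg_add] at this
          exact this }
  have hRmem : ∀ r, r ∈ R ↔ r.1 ∈ AG ∧ r.2 ∈ AH ∧ ∃ q ∈ Γ, r.1 + q.1 ∈ U p G (Order.succ β) ∧
        r.2 + q.2 ∈ U p H (Order.succ β) := fun r => Iff.rfl
  have hRB : ∀ r ∈ R, (r.1 ∈ BG ↔ r.2 ∈ BH) := by
    rintro r ⟨h1, h2, q, hq, h3, h4⟩
    have e1 : r.1 ∈ BG ↔ q.1 ∈ U p G (Order.succ β) := by
      constructor
      · intro h
        have := sub_mem h3 h.1
        rwa [add_sub_cancel_left] at this
      · intro h
        refine ⟨?_, h1.2⟩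
        have := sub_mem h3 h
        rwa [add_sub_cancel_right] at this
    have e2 : r.2 ∈ BH ↔ q.2 ∈ U p H (Order.succ β) := by
      constructor
      · intro h
        have := sub_mem h4 h.1
        rwa [add_sub_cancel_left] at this
      · intro h
        refine ⟨?_, h2.2⟩
        have := sub_mem h4 h
        rwa [add_sub_cancel_right] at this
    rw [e1, e2]
    exact hΓ.ht q hq _
  have hsnd : R.map (AddMonoidHom.snd G H) = AH := by
    apply le_antisymm
    · rintro _ ⟨r, hr, rfl⟩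
      exact hr.2.1
    · intro w hw
      obtain ⟨q, hq, hwq⟩ := hcon w hw.1 (mem_socle.1 hw.2)
      have hq2 : q.2 ∈ U p H β := by
        have := sub_mem (U_anti (Order.le_succ β) hwq) hw.1
        rwa [add_sub_cancel_left] at this
      have hq1 : q.1 ∈ U p G β := (hΓ.ht q hq β).2 hq2
      have hpq2 : p • q.2 ∈ U p H (Order.succ (Order.succ β)) := by
        have := smul_mem_U_succ hwq
        rwa [nsmul_add, mem_socle.1 hw.2, zero_add] at this
      have hpq1 : p • q.1 ∈ U p G (Order.succ (Order.succ β)) :=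
        (hΓ.ht (p • q) (nsmul_mem hq p) _).2 hpq2
      obtain ⟨y, hy, hyq⟩ := mem_U_succ.1 hpq1
      have hyA : y - q.1 ∈ AG := by
        refine AddSubgroup.mem_inf.2 ⟨sub_mem (U_anti (Order.le_succ β) hy) hq1, ?_⟩
        rw [mem_socle, nsmul_sub, hyq, sub_self]
      refine ⟨(y - q.1, w), ⟨hyA, hw, q, hq, ?_, hwq⟩, rfl⟩
      change y - q.1 + q.1 ∈ _
      rwa [sub_add_cancel]
  set CG := R.map (AddMonoidHom.fst G H) with hCG
  have hCA : CG ≤ AG := by
    rintro _ ⟨r, hr, rfl⟩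
    exact hr.1
  have hBC : BG ≤ CG := by
    intro b hb
    refine ⟨(b, 0), ⟨⟨U_anti (Order.le_succ β) hb.1, hb.2⟩, zero_mem _, 0, zero_mem _, ?_, ?_⟩, rfl⟩
    · change b + 0 ∈ _
      rw [add_zero]
      exact hb.1
    · change (0 : H) + 0 ∈ _
      rw [add_zero]
      exact zero_mem _
  have hidx : BG.relIndex CG = BH.relIndex AH := by
    rw [hCG, ← AddSubgroup.relIndex_comap, ← hsnd, ← AddSubgroup.relIndex_comap,
      ← AddSubgroup.inf_relIndex_right, ← AddSubgroup.inf_relIndex_right (BH.comap _)]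
    congr 1
    ext r
    simp only [AddSubgroup.mem_inf, AddSubgroup.mem_comap, AddMonoidHom.coe_fst,
      AddMonoidHom.coe_snd]
    constructor
    · rintro ⟨h1, h2⟩
      exact ⟨(hRB r h2).1 h1, h2⟩
    · rintro ⟨h1, h2⟩
      exact ⟨(hRB r h2).2 h1, h2⟩
  have hnz : BG.relIndex CG ≠ 0 := by
    let E : AddSubgroup (G × G) :=
      { carrier := {e | e.2 ∈ AG ∧ e.1 ∈ Γ.map (AddMonoidHom.fst G H) ∧
          e.2 + e.1 ∈ U p G (Order.succ β)}
        zero_mem' := ⟨zero_mem _, zero_mem _, by simp [zero_mem]⟩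
        add_mem' := by
          rintro r r' ⟨h1, h2, h3⟩ ⟨h1', h2', h3'⟩
          refine ⟨add_mem h1 h1', add_mem h2 h2', ?_⟩
          have := add_mem h3 h3'
          rw [add_add_add_comm] at this
          exact this
        neg_mem' := by
          rintro r ⟨h1, h2, h3⟩
          refine ⟨neg_mem h1, neg_mem h2, ?_⟩
          have := neg_mem h3
          rw [neg_add] at this
          exact this }
    have hCE : CG ≤ E.map (AddMonoidHom.snd G G) := by
      rintro _ ⟨r, ⟨h1, h2, q, hq, h3, h4⟩, rfl⟩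
      exact ⟨(q.1, r.1), ⟨h1, ⟨q, hq, rfl⟩, h3⟩, rfl⟩
    intro h0
    have h1 := AddSubgroup.relIndex_eq_zero_of_le_right hCE h0
    rw [← AddSubgroup.relIndex_comap, ← AddSubgroup.inf_relIndex_right] at h1
    have h2 : BG.comap (AddMonoidHom.snd G G) ⊓ E =
        (U p G (Order.succ β)).comap (AddMonoidHom.fst G G) ⊓ E := by
      ext e
      simp only [AddSubgroup.mem_inf, AddSubgroup.mem_comap, AddMonoidHom.coe_fst,
        AddMonoidHom.coe_snd]
      constructor
      · rintro ⟨h, he⟩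
        refine ⟨?_, he⟩
        have := sub_mem he.2.2 h.1
        rwa [add_sub_cancel_left] at this
      · rintro ⟨h, he⟩
        refine ⟨⟨?_, he.1.2⟩, he⟩
        have := sub_mem he.2.2 h
        rwa [add_sub_cancel_right] at this
    rw [h2, AddSubgroup.inf_relIndex_right, AddSubgroup.relIndex_comap] at h1
    have h3 := AddSubgroup.relIndex_dvd_card (U p G (Order.succ β))
      (E.map (AddMonoidHom.fst G G))
    rw [h1, zero_dvd_iff] at h3
    have hfin : Finite (E.map (AddMonoidHom.fst G G)) := by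
      have hs : ((E.map (AddMonoidHom.fst G G) : AddSubgroup G) : Set G) ⊆
          Prod.fst '' (Γ : Set (G × H)) := by
        rintro _ ⟨e, ⟨_, ⟨q, hq, hqe⟩, _⟩, rfl⟩
        exact ⟨q, hq, hqe⟩
      exact (hΓ.fin.image Prod.fst).subset hs
    exact Nat.card_pos.ne' h3
  have hmul := AddSubgroup.relIndex_mul_relIndex BG CG AG hBC hCA
  have hinv' : BG.relIndex AG = BH.relIndex AH := hinv
  rw [hinv', ← hidx] at hmul
  have hone : CG.relIndex AG = 1 := by
    have : BG.relIndex CG * CG.relIndex AG = BG.relIndex CG * 1 := by rw [hmul, mul_one]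
    exact Nat.eq_of_mul_eq_mul_left (Nat.pos_of_ne_zero hnz) this
  rw [AddSubgroup.relIndex_eq_one] at hone
  obtain ⟨r, ⟨h1, h2, q, hq, h3, h4⟩, hrv⟩ := hone (show v ∈ AG from ⟨hv, mem_socle.2 hpv⟩)
  have hrv' : r.1 = v := hrv
  rw [hrv'] at h3
  exact hprop q hq h3

/-- The counting argument for the divisible part. -/
theorem exists_notMem_D {Γ : AddSubgroup (G × H)} (hΓ : Good p Γ)
    (hinv : ulmTop p G = ulmTop p H) {v : G} (hv : v ∈ D p G) (hpv : p • v = 0)
    (hprop : ∀ q ∈ Γ, q.1 ≠ v) :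
    ∃ w ∈ D p H, p • w = 0 ∧ ∀ q ∈ Γ, q.2 ≠ w := by
  by_contra hcon
  push Not at hcon
  -- the part of `Γ` living in the two divisible socles
  let Δ : AddSubgroup (G × H) := Γ ⊓ (D p G ⊓ socle p G).prod (D p H ⊓ socle p H)
  have hinj1 : Function.Injective (fun q : Δ => q.1.1) := by
    intro q q' h
    have h1 : (q - q' : Δ).1.1 = 0 := by
      change q.1.1 - q'.1.1 = 0
      exact sub_eq_zero.2 h
    have h2 : (q - q' : Δ).1.2 = 0 := (hΓ.inj _ (q - q').2.1).1 h1
    have h3 : (q - q' : Δ).1 = 0 := Prod.ext h1 h2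
    have h4 : q - q' = 0 := Subtype.ext h3
    exact sub_eq_zero.1 h4
  have hinj2 : Function.Injective (fun q : Δ => q.1.2) := by
    intro q q' h
    have h1 : (q - q' : Δ).1.2 = 0 := by
      change q.1.2 - q'.1.2 = 0
      exact sub_eq_zero.2 h
    have h2 : (q - q' : Δ).1.1 = 0 := (hΓ.inj _ (q - q').2.1).2 h1
    have h3 : (q - q' : Δ).1 = 0 := Prod.ext h2 h1
    have h4 : q - q' = 0 := Subtype.ext h3
    exact sub_eq_zero.1 h4
  have hΔmem : ∀ q ∈ Γ, (q.1 ∈ D p G ⊓ socle p G ↔ q.2 ∈ D p H ⊓ socle p H) := by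
    intro q hq
    simp only [AddSubgroup.mem_inf, mem_D, mem_socle]
    refine and_congr (forall_congr' fun α => hΓ.ht q hq α) ?_
    exact hΓ.inj (p • q) (nsmul_mem hq p)
  have hfinΔ : Finite Δ := (hΓ.fin.subset (fun q hq => hq.1) : (Δ : Set (G × H)).Finite)
  -- onto the socle on the side of `H`
  let f2 : Δ → (D p H ⊓ socle p H : AddSubgroup H) := fun q => ⟨q.1.2, q.2.2.2⟩
  have hf2 : Function.Bijective f2 := by
    constructor
    · intro q q' h
      exact hinj2 (congrArg Subtype.val h)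
    · rintro ⟨w, hw⟩
      obtain ⟨q, hq, hqw⟩ := hcon w hw.1 (mem_socle.1 hw.2)
      refine ⟨⟨q, hq, ?_⟩, Subtype.ext hqw⟩
      have h2 : q.2 ∈ D p H ⊓ socle p H := by rw [hqw]; exact hw
      exact ⟨(hΔmem q hq).2 h2, h2⟩
  have hcard : Nat.card Δ = ulmTop p H := Nat.card_congr (Equiv.ofBijective f2 hf2)
  let f1 : Δ → (D p G ⊓ socle p G : AddSubgroup G) := fun q => ⟨q.1.1, q.2.2.1⟩
  have hf1 : Function.Injective f1 := fun q q' h => hinj1 (congrArg Subtype.val h)
  have hcardG : Nat.card (D p G ⊓ socle p G : AddSubgroup G) = Nat.card Δ := by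
    rw [hcard, ← hinv]
    rfl
  have hfinG : Finite (D p G ⊓ socle p G : AddSubgroup G) := by
    apply Nat.finite_of_card_ne_zero
    rw [hcardG]
    exact Nat.card_pos.ne'
  have hbij : Function.Bijective f1 := by
    rw [Nat.bijective_iff_injective_and_card]
    exact ⟨hf1, hcardG.symm⟩
  obtain ⟨q, hq⟩ := hbij.2 ⟨v, hv, mem_socle.2 hpv⟩
  exact hprop q.1 q.2.1 (congrArg Subtype.val hq)

theorem hht_of {Γ : AddSubgroup (G × H)} (hΓ : Good p Γ) {b : Ordinal.{0}} {x : G} {w : H}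
    (hx : x ∈ U p G b) (hw : w ∈ U p H b) (hx' : ∀ q ∈ Γ, x + q.1 ∉ U p G (Order.succ b))
    (hw' : ∀ q ∈ Γ, w + q.2 ∉ U p H (Order.succ b)) :
    ∀ q ∈ Γ, ∀ α, x + q.1 ∈ U p G α ↔ w + q.2 ∈ U p H α := by
  intro q hq α
  rcases le_or_gt α b with h | h
  · rw [AddSubgroup.add_mem_cancel_left _ (U_anti h hx),
      AddSubgroup.add_mem_cancel_left _ (U_anti h hw)]
    exact hΓ.ht q hq α
  · have h' := Order.succ_le_of_lt h
    constructor
    · intro h1
      exact absurd (U_anti h' h1) (hx' q hq)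
    · intro h1
      exact absurd (U_anti h' h1) (hw' q hq)

/-- One extension step on the side of `G`. -/
theorem step (hp : p.Prime) (hG : IsPrimary p G) (hH : IsPrimary p H)
    (hinv : ∀ β, ulm p G β = ulm p H β) (htop : ulmTop p G = ulmTop p H)
    {Γ : AddSubgroup (G × H)} (hΓ : Good p Γ) (x : G) (hpx : ∃ q ∈ Γ, q.1 = p • x) :
    ∃ Γ' : AddSubgroup (G × H), Γ ≤ Γ' ∧ Good p Γ' ∧ ∃ q ∈ Γ', q.1 = x := by
  by_cases hxΓ : ∃ q ∈ Γ, q.1 = x
  · exact ⟨Γ, le_rfl, hΓ, hxΓ⟩
  suffices h : ∃ r ∈ Γ, ∃ w : H, (p • (x + r.1), p • w) ∈ Γ ∧ (∀ q ∈ Γ, q.2 ≠ w) ∧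
      ∀ q ∈ Γ, ∀ α, x + r.1 + q.1 ∈ U p G α ↔ w + q.2 ∈ U p H α by
    obtain ⟨r, hr, w, h1, h2, h3⟩ := h
    refine ⟨Γ ⊔ AddSubgroup.zmultiples (x + r.1, w), le_sup_left,
      good_extend hp hG hH hΓ h1 ?_ h2 h3, (x + r.1, w) + -r, ?_, ?_⟩
    · intro q hq hqx
      apply hxΓ
      refine ⟨q - r, sub_mem hq hr, ?_⟩
      rw [Prod.fst_sub, hqx, add_sub_cancel_right]
    · exact add_mem (AddSubgroup.mem_sup_right (AddSubgroup.mem_zmultiples _))
        (AddSubgroup.mem_sup_left (neg_mem hr))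
    · simp
  obtain ⟨q0, hq0, hq0x⟩ := hpx
  -- the pair over `p • (x + r.1)`
  have hpair : ∀ r ∈ Γ, ∃ z : H, (p • (x + r.1), z) ∈ Γ := by
    intro r hr
    refine ⟨(q0 + p • r).2, ?_⟩
    have : (p • (x + r.1), (q0 + p • r).2) = q0 + p • r := by
      ext
      · simp [hq0x]
      · rfl
    rw [this]
    exact add_mem hq0 (nsmul_mem hr p)
  by_cases hA : ∃ r ∈ Γ, ∀ α, x + r.1 ∈ U p G α
  · -- infinite height
    obtain ⟨r, hr, hrα⟩ := hA
    obtain ⟨z, hz⟩ := hpair r hr
    have hzD : z ∈ D p H := by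
      rw [mem_D]
      intro α
      exact (hΓ.ht _ hz α).1 (nsmul_mem (hrα α) p)
    obtain ⟨w0, hw0, hw0z⟩ := exists_smul_eq_of_mem_D hzD
    have hmain : ∀ w ∈ D p H, ∀ q ∈ Γ, ∀ α, x + r.1 + q.1 ∈ U p G α ↔ w + q.2 ∈ U p H α := by
      intro w hw q hq α
      rw [AddSubgroup.add_mem_cancel_left _ (hrα α),
        AddSubgroup.add_mem_cancel_left _ (mem_D.1 hw α)]
      exact hΓ.ht q hq α
    by_cases hw0Γ : ∃ q ∈ Γ, q.2 = w0
    · obtain ⟨s, hs, hsw⟩ := hw0Γ
      have hsD : s.1 ∈ D p G := by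
        rw [mem_D]
        intro α
        rw [hΓ.ht s hs α, hsw]
        exact mem_D.1 hw0 α
      have hps : p • s.1 = p • (x + r.1) := by
        have h1 : p • s - (p • (x + r.1), z) ∈ Γ := sub_mem (nsmul_mem hs p) hz
        have h2 := (hΓ.inj _ h1).2 (by
          rw [Prod.snd_sub, Prod.smul_snd, hsw, hw0z, sub_self])
        rw [Prod.fst_sub, Prod.smul_fst] at h2
        exact sub_eq_zero.1 h2
      obtain ⟨y, hyD, hpy, hyΓ⟩ := exists_notMem_D hΓ htop (v := x + r.1 - s.1)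
        (sub_mem (mem_D.2 hrα) hsD) (by rw [nsmul_sub, hps, sub_self]) (by
          intro q hq hqv
          apply hxΓ
          refine ⟨q + s - r, sub_mem (add_mem hq hs) hr, ?_⟩
          rw [Prod.fst_sub, Prod.fst_add, hqv]
          abel)
      refine ⟨r, hr, w0 + y, ?_, ?_, hmain _ (add_mem hw0 hyD)⟩
      · rw [nsmul_add w0 y, hpy, add_zero, hw0z]
        exact hz
      · intro q hq hqw
        refine hyΓ (q - s) (sub_mem hq hs) ?_
        rw [Prod.snd_sub, hqw, hsw, add_sub_cancel_left]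
    · refine ⟨r, hr, w0, by rw [hw0z]; exact hz, ?_, hmain _ hw0⟩
      intro q hq hqw
      exact hw0Γ ⟨q, hq, hqw⟩
  · -- all heights in the coset are ordinals
    push Not at hA
    have hB : ∀ r ∈ Γ, ∃ β, x + r.1 ∈ U p G β ∧ x + r.1 ∉ U p G (Order.succ β) :=
      fun r hr => exists_height (hA r hr)
    choose! β hβ1 hβ2 using hB
    obtain ⟨r0, hr0, hmax⟩ := Set.exists_max_image (Γ : Set (G × H)) β hΓ.fin ⟨0, zero_mem Γ⟩
    set b := β r0 with hb
    have hproper : ∀ q ∈ Γ, x + q.1 ∉ U p G (Order.succ b) := by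
      intro q hq h
      exact hβ2 q hq (U_anti (Order.succ_le_succ (hmax q hq)) h)
    by_cases h2 : ∃ r ∈ Γ, x + r.1 ∈ U p G b ∧ p • (x + r.1) ∈ U p G (Order.succ (Order.succ b))
    · obtain ⟨r, hr, hrb, hrp⟩ := h2
      obtain ⟨z, hz⟩ := hpair r hr
      have hz2 : z ∈ U p H (Order.succ (Order.succ b)) := (hΓ.ht _ hz _).1 hrp
      obtain ⟨y', hy', hpy'⟩ := mem_U_succ.1 hz2
      obtain ⟨y, hy, hpy⟩ := mem_U_succ.1 hrp
      obtain ⟨v', hv', hpv', hv'Γ⟩ := exists_proper hΓ b (hinv b) (v := x + r.1 - y)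
        (sub_mem hrb (U_anti (Order.le_succ b) hy)) (by rw [nsmul_sub, hpy, sub_self]) (by
          intro q hq h
          apply hproper (r + q) (add_mem hr hq)
          have := add_mem h hy
          rw [Prod.fst_add]
          convert this using 1
          abel)
      refine ⟨r, hr, v' + y', ?_, ?_, ?_⟩
      · rw [nsmul_add v' y', hpv', zero_add, hpy']
        exact hz
      · intro q hq hqw
        refine hv'Γ (-q) (neg_mem hq) ?_
        rw [Prod.snd_neg, hqw]
        have := neg_mem hy'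
        convert this using 1
        abel
      · refine hht_of hΓ hrb (add_mem hv' (U_anti (Order.le_succ b) hy')) ?_ ?_
        · intro q hq h
          apply hproper (r + q) (add_mem hr hq)
          rw [Prod.fst_add, ← add_assoc]
          exact h
        · intro q hq h
          refine hv'Γ q hq ?_
          have := sub_mem h hy'
          convert this using 1
          abel
    · push Not at h2
      obtain ⟨z, hz⟩ := hpair r0 hr0
      have hx1 : x + r0.1 ∈ U p G b := hβ1 r0 hr0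
      have hz1 : z ∈ U p H (Order.succ b) := (hΓ.ht _ hz _).1 (smul_mem_U_succ hx1)
      obtain ⟨w, hw, hpw⟩ := mem_U_succ.1 hz1
      have hwΓ : ∀ q ∈ Γ, w + q.2 ∉ U p H (Order.succ b) := by
        intro q hq h
        have hq2 : q.2 ∈ U p H b := by
          have := sub_mem (U_anti (Order.le_succ b) h) hw
          rwa [add_sub_cancel_left] at this
        have hq1 : q.1 ∈ U p G b := (hΓ.ht q hq b).2 hq2
        refine h2 (r0 + q) (add_mem hr0 hq) ?_ ?_
        · rw [Prod.fst_add, ← add_assoc]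
          exact add_mem hx1 hq1
        · have h3 : (p • (x + (r0 + q).1), p • (w + q.2)) ∈ Γ := by
            have : (p • (x + (r0 + q).1), p • (w + q.2)) = (p • (x + r0.1), z) + p • q := by
              ext
              · simp [add_assoc]
              · simp [hpw]
            rw [this]
            exact add_mem hz (nsmul_mem hq p)
          exact (hΓ.ht _ h3 _).2 (smul_mem_U_succ h)
      refine ⟨r0, hr0, w, by rw [hpw]; exact hz, ?_, ?_⟩
      · intro q hq hqw
        refine hwΓ (-q) (neg_mem hq) ?_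
        rw [Prod.snd_neg, hqw, add_neg_cancel]
        exact zero_mem _
      · refine hht_of hΓ hx1 hw ?_ hwΓ
        intro q hq h
        apply hproper (r0 + q) (add_mem hr0 hq)
        rw [Prod.fst_add, ← add_assoc]
        exact h

/-- Extension to an arbitrary element on the side of `G`. -/
theorem extend_left (hp : p.Prime) (hG : IsPrimary p G) (hH : IsPrimary p H)
    (hinv : ∀ β, ulm p G β = ulm p H β) (htop : ulmTop p G = ulmTop p H)
    {Γ : AddSubgroup (G × H)} (hΓ : Good p Γ) (x : G) :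
    ∃ Γ' : AddSubgroup (G × H), Γ ≤ Γ' ∧ Good p Γ' ∧ ∃ q ∈ Γ', q.1 = x := by
  have key : ∀ n : ℕ, ∀ x : G, p ^ n • x = 0 →
      ∃ Γ' : AddSubgroup (G × H), Γ ≤ Γ' ∧ Good p Γ' ∧ ∃ q ∈ Γ', q.1 = x := by
    intro n
    induction n with
    | zero =>
      intro x hx
      rw [pow_zero, one_nsmul] at hx
      exact ⟨Γ, le_rfl, hΓ, 0, zero_mem _, by rw [hx]; rfl⟩
    | succ n ih =>
      intro x hx
      rw [pow_succ, mul_nsmul'] at hx
      obtain ⟨Γ1, h1, h2, h3⟩ := ih (p • x) hx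
      obtain ⟨Γ2, h4, h5, h6⟩ := step hp hG hH hinv htop h2 x h3
      exact ⟨Γ2, h1.trans h4, h5, h6⟩
  obtain ⟨n, hn⟩ := hG x
  exact key n x hn

/-- Extension to an arbitrary element on the side of `H`. -/
theorem extend_right (hp : p.Prime) (hG : IsPrimary p G) (hH : IsPrimary p H)
    (hinv : ∀ β, ulm p G β = ulm p H β) (htop : ulmTop p G = ulmTop p H)
    {Γ : AddSubgroup (G × H)} (hΓ : Good p Γ) (y : H) :
    ∃ Γ' : AddSubgroup (G × H), Γ ≤ Γ' ∧ Good p Γ' ∧ ∃ q ∈ Γ', q.2 = y := by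
  obtain ⟨Γ', h1, h2, q, hq, hqy⟩ := extend_left hp hH hG (fun β => (hinv β).symm) htop.symm
    hΓ.swap y
  refine ⟨Γ'.map (AddEquiv.prodComm (M := H) (N := G)).toAddMonoidHom, ?_, h2.swap,
    q.swap, ⟨q, hq, rfl⟩, hqy⟩
  intro r hr
  exact ⟨r.swap, h1 ⟨r, hr, rfl⟩, by simp⟩

/-- Ulm's theorem for countable abelian `p`-groups, reduced or not. -/
theorem ulm_theorem [Countable G] [Countable H] (hp : p.Prime) (hG : IsPrimary p G)
    (hH : IsPrimary p H) (hinv : ∀ β, ulm p G β = ulm p H β) (htop : ulmTop p G = ulmTop p H) :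
    Nonempty (G ≃+ H) := by
  classical
  let P := {Γ : AddSubgroup (G × H) // Good p Γ}
  let 𝒟 : G ⊕ H → Order.Cofinal P := fun i => match i with
    | Sum.inl x => ⟨{Γ | ∃ q ∈ Γ.1, q.1 = x}, by
        intro Γ
        obtain ⟨Γ', h1, h2, h3⟩ := extend_left hp hG hH hinv htop Γ.2 x
        exact ⟨⟨Γ', h2⟩, h3, h1⟩⟩
    | Sum.inr y => ⟨{Γ | ∃ q ∈ Γ.1, q.2 = y}, by
        intro Γ
        obtain ⟨Γ', h1, h2, h3⟩ := extend_right hp hG hH hinv htop Γ.2 y
        exact ⟨⟨Γ', h2⟩, h3, h1⟩⟩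
  have : Encodable (G ⊕ H) := Encodable.ofCountable _
  let I := Order.idealOfCofinals (⟨⊥, good_bot⟩ : P) 𝒟
  have hdir : ∀ Γ1 ∈ I, ∀ Γ2 ∈ I, ∃ Γ3 ∈ I, Γ1 ≤ Γ3 ∧ Γ2 ≤ Γ3 := I.directed
  have hleft : ∀ x : G, ∃ y : H, ∃ Γ ∈ I, (x, y) ∈ Γ.1 := by
    intro x
    obtain ⟨Γ, ⟨q, hq, hqx⟩, hΓI⟩ :=
      Order.cofinal_meets_idealOfCofinals (⟨⊥, good_bot⟩ : P) 𝒟 (Sum.inl x)
    exact ⟨q.2, Γ, hΓI, by rw [← hqx]; exact hq⟩
  have hright : ∀ y : H, ∃ x : G, ∃ Γ ∈ I, (x, y) ∈ Γ.1 := by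
    intro y
    obtain ⟨Γ, ⟨q, hq, hqy⟩, hΓI⟩ :=
      Order.cofinal_meets_idealOfCofinals (⟨⊥, good_bot⟩ : P) 𝒟 (Sum.inr y)
    exact ⟨q.1, Γ, hΓI, by rw [← hqy]; exact hq⟩
  have hadd : ∀ q q' : G × H, (∃ Γ ∈ I, q ∈ Γ.1) → (∃ Γ ∈ I, q' ∈ Γ.1) →
      ∃ Γ ∈ I, q + q' ∈ Γ.1 := by
    rintro q q' ⟨Γ1, h1, h2⟩ ⟨Γ2, h3, h4⟩
    obtain ⟨Γ3, h5, h6, h7⟩ := hdir Γ1 h1 Γ2 h3
    exact ⟨Γ3, h5, add_mem (h6 h2) (h7 h4)⟩
  have hneg : ∀ q : G × H, (∃ Γ ∈ I, q ∈ Γ.1) → ∃ Γ ∈ I, -q ∈ Γ.1 := by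
    rintro q ⟨Γ1, h1, h2⟩
    exact ⟨Γ1, h1, neg_mem h2⟩
  have hinj : ∀ q : G × H, (∃ Γ ∈ I, q ∈ Γ.1) → (q.1 = 0 ↔ q.2 = 0) := by
    rintro q ⟨Γ1, h1, h2⟩
    exact Γ1.2.inj q h2
  choose f hf using hleft
  have huniq : ∀ x y, (∃ Γ ∈ I, (x, y) ∈ Γ.1) → f x = y := by
    intro x y h
    have h1 := hinj _ (hadd _ _ (hf x) (hneg _ h))
    have h2 := h1.1 (by simp)
    have h3 : f x + -y = 0 := h2
    exact (eq_neg_of_add_eq_zero_left h3).trans (neg_neg y)
  let F : G →+ H := AddMonoidHom.mk' f (by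
    intro a b
    exact huniq _ _ (hadd _ _ (hf a) (hf b)))
  refine ⟨AddEquiv.ofBijective F ⟨?_, ?_⟩⟩
  · rw [injective_iff_map_eq_zero]
    intro a ha
    exact (hinj _ (hf a)).2 ha
  · intro y
    obtain ⟨x, hx⟩ := hright y
    exact ⟨x, huniq x y hx⟩

end extension

end Pool.Agent.Lib.MP_660a49_lc
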