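import Pool.Agent.Lib.MP_660a49_lc.Beta

/-!
# A universal formula, and a beta-model in which `Π^1_1` comprehension fails
-/

namespace Pool.Agent.Lib.MP_660a49_lc

/-- The pairing function. -/
def pr (x y : ℕ) : ℕ := (x + y) * (x + y) + x

theorem pr_inj {x y x' y' : ℕ} : pr x y = pr x' y' ↔ x = x' ∧ y = y' := by
  constructor
  · intro h
    unfold pr at h
    have h1 : x + y = x' + y' := by
      by_contra hne
      rcases Nat.lt_or_gt_of_ne hne with hlt | hlt
      · have : (x + y + 1) * (x + y + 1) ≤ (x' + y') * (x' + y') := Nat.mul_le_mul hlt hlt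
        nlinarith
      · have : (x' + y' + 1) * (x' + y' + 1) ≤ (x + y) * (x + y) := Nat.mul_le_mul hlt hlt
        nlinarith
    rw [h1] at h
    omega
  · rintro ⟨rfl, rfl⟩
    rfl

theorem evN_pair (v : ℕ → ℕ) (s t : Term) : evN v (pair s t) = pr (evN v s) (evN v t) := rfl

/-! ### Codes -/

/-- Codes of pairs (with an extra point, used as a true leaf). -/
noncomputable def cp : Option Pr → ℕ := Classical.choose (exists_injective_nat (Option Pr))

theorem cp_inj {r r' : Option Pr} : cp r = cp r' ↔ r = r' :=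
  (Classical.choose_spec (exists_injective_nat (Option Pr))).eq_iff

/-- Codes of finite sets of pairs with an index. -/
noncomputable def cf : Finset Pr × ℕ → ℕ :=
  Classical.choose (exists_injective_nat (Finset Pr × ℕ))

theorem cf_inj {r r' : Finset Pr × ℕ} : cf r = cf r' ↔ r = r' :=
  (Classical.choose_spec (exists_injective_nat (Finset Pr × ℕ))).eq_iff

/-- The formula is a membership atom. -/
def IsMem : Formula → Prop
  | .fmem _ _ => True
  | _ => False

/-- A node which is true iff none of its children is true. -/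
def IsNode : Option Pr → Prop
  | none => True
  | some q => Arithmetical q.1 ∧ ¬ IsMem q.1

/-- The children of a node. -/
def children : Option Pr → Set (Option Pr)
  | none => ∅
  | some (.feq s t, v) => {r | r = none ∧ evN v s ≠ evN v t}
  | some (.flt s t, v) => {r | r = none ∧ ¬ evN v s < evN v t}
  | some (.fmem _ _, _) => ∅
  | some (.fneg φ, v) => {some (φ, v)}
  | some (.fand φ ψ, v) => {r | r = some (.fneg φ, v) ∨ r = some (.fneg ψ, v)}
  | some (.fallN x φ, v) => {r | ∃ n : ℕ, r = some (.fneg φ, v.update x n)}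
  | some (.fallS _ _, _) => ∅

/-- A predicate following the recursion is truth. -/
theorem truth_unique (T : Option Pr → Prop) (V : ℕ → Set ℕ)
    (h2 : ∀ r, IsNode r → (T r ↔ ∀ r' ∈ children r, ¬ T r'))
    (h3 : ∀ t X v, T (some (.fmem t X, v)) ↔ evN v t ∈ V X) :
    ∀ θ, Arithmetical θ → ∀ v : ℕ →₀ ℕ, (T (some (θ, v)) ↔ SatN θ v V) := by
  have h0 : T none := by
    rw [h2 none trivial]
    intro r hr
    exact hr.elim
  have hneg : ∀ θ, Arithmetical θ → ∀ v : ℕ →₀ ℕ, (T (some (.fneg θ, v)) ↔ ¬ T (some (θ, v))) := by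
    intro θ hθ v
    rw [h2 (some (.fneg θ, v)) ⟨hθ, fun h => h⟩]
    constructor
    · intro h
      exact h _ rfl
    · rintro h r rfl
      exact h
  intro θ
  induction θ with
  | feq s t =>
    intro hθ v
    rw [h2 (some (.feq s t, v)) ⟨hθ, fun h => h⟩]
    constructor
    · intro h
      by_contra hne
      exact h none ⟨rfl, hne⟩ h0
    · rintro h r ⟨rfl, hne⟩
      exact absurd h hne
  | flt s t =>
    intro hθ v
    rw [h2 (some (.flt s t, v)) ⟨hθ, fun h => h⟩]
    constructor
    · intro h
      by_contra hne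
      exact h none ⟨rfl, hne⟩ h0
    · rintro h r ⟨rfl, hne⟩
      exact absurd h hne
  | fmem t X =>
    intro hθ v
    exact h3 t X v
  | fneg φ ih =>
    intro hθ v
    rw [hneg φ hθ v, ih hθ v]
    rfl
  | fand φ ψ ih1 ih2 =>
    intro hθ v
    rw [h2 (some (.fand φ ψ, v)) ⟨hθ, fun h => h⟩]
    constructor
    · intro h
      have e1 := h (some (.fneg φ, v)) (Or.inl rfl)
      have e2 := h (some (.fneg ψ, v)) (Or.inr rfl)
      rw [hneg φ hθ.1 v, not_not, ih1 hθ.1 v] at e1
      rw [hneg ψ hθ.2 v, not_not, ih2 hθ.2 v] at e2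
      exact ⟨e1, e2⟩
    · rintro h r (rfl | rfl)
      · rw [hneg φ hθ.1 v, not_not, ih1 hθ.1 v]
        exact h.1
      · rw [hneg ψ hθ.2 v, not_not, ih2 hθ.2 v]
        exact h.2
  | fallN x φ ih =>
    intro hθ v
    rw [h2 (some (.fallN x φ, v)) ⟨hθ, fun h => h⟩]
    constructor
    · intro h n
      have e := h (some (.fneg φ, v.update x n)) ⟨n, rfl⟩
      rw [hneg φ hθ _, not_not, ih hθ _, Finsupp.coe_update] at e
      exact e
    · rintro h r ⟨n, rfl⟩
      rw [hneg φ hθ _, not_not, ih hθ _, Finsupp.coe_update]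
      exact h n
  | fallS X φ ih =>
    intro hθ
    exact hθ.elim

/-- The five relations used as parameters. -/
def par : ℕ → Set ℕ
  | 0 => {n | ∃ r, IsNode r ∧ n = cp r}
  | 1 => {n | ∃ r r', r' ∈ children r ∧ n = pr (cp r) (cp r')}
  | 2 => {n | ∃ t X v, n = pr (cp (some (.fmem t X, v))) (pr X (evN v t))}
  | 3 => {n | ∃ F i, (∀ q ∈ F, Arithmetical q.1) ∧ n = pr (cf (F, i)) i}
  | 4 => {n | ∃ F i, ∃ q ∈ F, n = pr (cf (F, i)) (cp (some q))}
  | _ => ∅

/-- The single parameter. -/
def param : Set ℕ := {n | ∃ k x, n = pr k x ∧ x ∈ par k}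

theorem mem_param {k x : ℕ} : pr k x ∈ param ↔ x ∈ par k := by
  constructor
  · rintro ⟨k', x', h1, h2⟩
    obtain ⟨rfl, rfl⟩ := pr_inj.1 h1
    exact h2
  · intro h
    exact ⟨k, x, rfl, h⟩

/-- The meaning of the universal formula: `W` codes a sequence of sets starting with `P` and a truth
predicate for it. -/
def PhiSem (P W : Set ℕ) (m : ℕ) : Prop :=
  (∀ x, pr 1 x ∈ W ↔ x ∈ P) ∧
  (∀ c, pr 0 c ∈ P → (pr 0 c ∈ W ↔ ∀ d, pr 1 (pr c d) ∈ P → pr 0 d ∉ W)) ∧
  (∀ c j x, pr 2 (pr c (pr j x)) ∈ P → (pr 0 c ∈ W ↔ pr (j + 1) x ∈ W)) ∧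
  (∃ j, pr 3 (pr m j) ∈ P ∧ pr (j + 1) m ∈ W) ∧
  (∀ c, pr 4 (pr m c) ∈ P → pr 0 c ∈ W)

/-- The number `2` and so on as terms. -/
def num : ℕ → Term
  | 0 => .tzero
  | 1 => .tone
  | k + 2 => .tadd (num (k + 1)) .tone

theorem evN_num (v : ℕ → ℕ) (k : ℕ) : evN v (num k) = k := by
  induction k using num.induct with
  | case1 => rfl
  | case2 => rfl
  | case3 k ih =>
    simp only [num, evN, ih]

/-- The universal formula; `W` is the set variable `0`, `P` is the set variable `1`. -/
def Phi : Formula :=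
  let m : Term := .tvar 0
  let c : Term := .tvar 1
  let d : Term := .tvar 2
  let j : Term := .tvar 3
  let x : Term := .tvar 4
  .fand (.fallN 4 (.fiff (.fmem (pair (num 1) x) 0) (.fmem x 1))) (.fand
    (.fallN 1 (.fimp (.fmem (pair (num 0) c) 1) (.fiff (.fmem (pair (num 0) c) 0)
      (.fallN 2 (.fimp (.fmem (pair (num 1) (pair c d)) 1) (.fneg (.fmem (pair (num 0) d) 0))))))) (.fand
    (.fallN 1 (.fallN 3 (.fallN 4 (.fimp (.fmem (pair (num 2) (pair c (pair j x))) 1)
      (.fiff (.fmem (pair (num 0) c) 0) (.fmem (pair (.tadd j .tone) x) 0)))))) (.fand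
    (.fexN 3 (.fand (.fmem (pair (num 3) (pair m j)) 1) (.fmem (pair (.tadd j .tone) m) 0)))
    (.fallN 1 (.fimp (.fmem (pair (num 4) (pair m c)) 1) (.fmem (pair (num 0) c) 0))))))

theorem satN_imp {φ ψ : Formula} {v : ℕ → ℕ} {V : ℕ → Set ℕ} :
    SatN (.fimp φ ψ) v V ↔ (SatN φ v V → SatN ψ v V) := by
  simp only [Formula.fimp, SatN]
  tauto

theorem satN_iff {φ ψ : Formula} {v : ℕ → ℕ} {V : ℕ → Set ℕ} :
    SatN (.fiff φ ψ) v V ↔ (SatN φ v V ↔ SatN ψ v V) := by
  simp only [Formula.fiff, Formula.fimp, SatN]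
  tauto

theorem satN_exN {φ : Formula} {v : ℕ → ℕ} {V : ℕ → Set ℕ} {x : ℕ} :
    SatN (.fexN x φ) v V ↔ ∃ a, SatN φ (Function.update v x a) V := by
  simp only [Formula.fexN, SatN]
  push Not
  rfl

theorem satN_Phi (v : ℕ → ℕ) (V : ℕ → Set ℕ) : SatN Phi v V ↔ PhiSem (V 1) (V 0) (v 0) := by
  simp only [Phi, PhiSem, satN_imp, satN_iff, satN_exN, SatN, evN_pair, evN_num, evN,
    Function.update_self, ne_eq, not_false_eq_true, Function.update_of_ne, OfNat.zero_ne_ofNat,
    OfNat.one_ne_ofNat, zero_ne_one, Nat.reduceEqDiff]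

theorem arithmetical_Phi : Arithmetical Phi := by
  simp [Phi, Arithmetical, Formula.fiff, Formula.fimp, Formula.fexN]

/-- The set defined by the `Π^1_1` formula. -/
def diag : Set ℕ := {m | ∀ W, ¬ PhiSem param W m}

theorem notDef_diag : NotDef param diag := by
  intro F i hF heq
  have key : (∃ W, PhiSem param W (cf (F, i))) ↔ ∃ V ∈ sols param F, cf (F, i) ∈ V i := by
    constructor
    · rintro ⟨W, h1, h2, h3, h4, h5⟩
      set V : ℕ → Set ℕ := fun j => {x | pr (j + 1) x ∈ W} with hV
      have htr : ∀ θ, Arithmetical θ → ∀ v : ℕ →₀ ℕ,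
          (pr 0 (cp (some (θ, v))) ∈ W ↔ SatN θ v V) := by
        refine truth_unique (fun r => pr 0 (cp r) ∈ W) V ?_ ?_
        · intro r hr
          have e := h2 (cp r) (mem_param.2 ⟨r, hr, rfl⟩)
          rw [e]
          constructor
          · intro h r' hr'
            exact h (cp r') (mem_param.2 ⟨r, r', hr', rfl⟩)
          · intro h d hd
            obtain ⟨r1, r2, h6, h7⟩ := mem_param.1 hd
            obtain ⟨h8, rfl⟩ := pr_inj.1 h7
            rw [cp_inj] at h8
            subst h8
            exact h r2 h6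
        · intro t X v
          exact h3 _ X (evN v t) (mem_param.2 ⟨t, X, v, rfl⟩)
      obtain ⟨j, hj1, hj2⟩ := h4
      obtain ⟨F', i', _, h7⟩ := mem_param.1 hj1
      obtain ⟨h8, rfl⟩ := pr_inj.1 h7
      rw [cf_inj] at h8
      obtain ⟨rfl, rfl⟩ := Prod.mk.inj h8
      refine ⟨V, ⟨?_, ?_⟩, hj2⟩
      · ext x
        exact h1 x
      · intro q hq
        exact (htr q.1 (hF q hq) q.2).1 (h5 (cp (some q)) (mem_param.2 ⟨_, _, q, hq, rfl⟩))
    · rintro ⟨V, hV, hi⟩
      let T : Option Pr → Prop := fun r => match r with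
        | none => True
        | some q => holds V q
      let W : Set ℕ := {n | (∃ r, n = pr 0 (cp r) ∧ T r) ∨ ∃ j x, n = pr (j + 1) x ∧ x ∈ V j}
      have hW0 : ∀ r, pr 0 (cp r) ∈ W ↔ T r := by
        intro r
        constructor
        · rintro (⟨r', h1, h2⟩ | ⟨j, x, h1, h2⟩)
          · obtain ⟨_, h3⟩ := pr_inj.1 h1
            rw [cp_inj.1 h3]
            exact h2
          · obtain ⟨h3, _⟩ := pr_inj.1 h1
            exact absurd h3 (Nat.succ_ne_zero j).symm
        · intro h
          exact Or.inl ⟨r, rfl, h⟩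
      have hW1 : ∀ j x, pr (j + 1) x ∈ W ↔ x ∈ V j := by
        intro j x
        constructor
        · rintro (⟨r', h1, h2⟩ | ⟨j', x', h1, h2⟩)
          · obtain ⟨h3, _⟩ := pr_inj.1 h1
            exact absurd h3 (Nat.succ_ne_zero j)
          · obtain ⟨h3, h4⟩ := pr_inj.1 h1
            have h5 : j = j' := by omega
            subst h5 h4
            exact h2
        · intro h
          exact Or.inr ⟨j, x, rfl, h⟩
      refine ⟨W, ?_, ?_, ?_, ?_, ?_⟩
      · intro x
        rw [← hV.1]
        exact hW1 0 x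
      · intro c hc
        obtain ⟨r, hr, rfl⟩ := mem_param.1 hc
        rw [hW0]
        have e : (∀ d, pr 1 (pr (cp r) d) ∈ param → pr 0 d ∉ W) ↔
            ∀ r' ∈ children r, ¬ T r' := by
          constructor
          · intro h r' hr'
            rw [← hW0]
            exact h (cp r') (mem_param.2 ⟨r, r', hr', rfl⟩)
          · intro h d hd
            obtain ⟨r1, r2, h6, h7⟩ := mem_param.1 hd
            obtain ⟨h8, rfl⟩ := pr_inj.1 h7
            rw [cp_inj] at h8
            subst h8
            rw [hW0]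
            exact h r2 h6
        rw [e]
        match r, hr with
        | none, _ => simp [T, children]
        | some (.feq s t, v), _ =>
          simp only [T, children, holds, SatN]
          constructor
          · rintro h r' ⟨rfl, hne⟩
            exact absurd h hne
          · intro h
            by_contra hne
            exact h none ⟨rfl, hne⟩ trivial
        | some (.flt s t, v), _ =>
          simp only [T, children, holds, SatN]
          constructor
          · rintro h r' ⟨rfl, hne⟩
            exact absurd h hne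
          · intro h
            by_contra hne
            exact h none ⟨rfl, hne⟩ trivial
        | some (.fmem t X, v), hr => exact absurd trivial hr.2
        | some (.fneg φ, v), _ =>
          simp only [T, children, holds, SatN]
          constructor
          · rintro h r' rfl
            exact h
          · intro h
            exact h _ rfl
        | some (.fand φ ψ, v), _ =>
          simp only [T, children, holds, SatN]
          constructor
          · rintro ⟨h1, h2⟩ r' (rfl | rfl)
            · exact fun h => h h1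
            · exact fun h => h h2
          · intro h
            have e1 := h _ (Or.inl rfl)
            have e2 := h _ (Or.inr rfl)
            simp only [SatN, not_not] at e1 e2
            exact ⟨e1, e2⟩
        | some (.fallN x φ, v), _ =>
          simp only [T, children, holds, SatN]
          constructor
          · rintro h r' ⟨n, rfl⟩
            simp only [SatN, not_not]
            rw [Finsupp.coe_update]
            exact h n
          · intro h n
            have e := h _ ⟨n, rfl⟩
            simp only [SatN, not_not] at e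
            rw [Finsupp.coe_update] at e
            exact e
        | some (.fallS X φ, v), hr => exact hr.1.elim
      · intro c j x h
        obtain ⟨t, X, v, h1⟩ := mem_param.1 h
        obtain ⟨rfl, h2⟩ := pr_inj.1 h1
        obtain ⟨rfl, rfl⟩ := pr_inj.1 h2
        rw [hW0, hW1]
        rfl
      · exact ⟨i, mem_param.2 ⟨F, i, hF, rfl⟩, (hW1 _ _).2 hi⟩
      · intro c h
        obtain ⟨F', i', q, hq, h1⟩ := mem_param.1 h
        obtain ⟨h2, rfl⟩ := pr_inj.1 h1
        rw [cf_inj] at h2
        obtain ⟨rfl, rfl⟩ := Prod.mk.inj h2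
        rw [hW0]
        exact hV.2 q hq
  have h1 : cf (F, i) ∈ diag ↔ ¬ ∃ W, PhiSem param W (cf (F, i)) := by
    simp [diag]
  have h2 : cf (F, i) ∈ diag ↔ ∃ V ∈ sols param F, cf (F, i) ∈ V i := by
    rw [← heq]
    rfl
  rw [key] at h1
  by_cases h : ∃ V ∈ sols param F, cf (F, i) ∈ V i
  · exact h1.1 (h2.2 h) h
  · exact h (h2.1 (h1.2 h))

/-- The instance of `Π^1_1` comprehension used. -/
theorem not_models_Pi11CA0 {𝒮 : Set (Set ℕ)} (hP : param ∈ 𝒮) (hS : diag ∉ 𝒮) (hβ : Beta 𝒮) :
    ¬ Models (omega 𝒮 ⟨_, hP⟩) Pi11CA0 := by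
  intro hmod
  have hax : comprehension 2 0 (.fallS 0 (.fneg Phi)) ∈ Pi11CA0 := by
    refine Or.inr ⟨2, 0, _, ⟨0, .fneg Phi, arithmetical_Phi, rfl⟩, ?_, rfl⟩
    simp [FreeS, Phi, Formula.fiff, Formula.fimp, Formula.fexN]
  have h := hmod _ hax (fun _ => (0 : ℕ)) (fun _ => param) (fun _ => hP)
  rw [comprehension, sat_exS] at h
  obtain ⟨Y, hY, h⟩ := h
  apply hS
  have hYd : Y = diag := by
    ext m
    have h1 := h m
    rw [sat_iff] at h1
    have e1 : Sat (omega 𝒮 ⟨_, hP⟩) (.fmem (.tvar 0) 2) (Function.update (fun _ => (0 : ℕ)) 0 m)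
        (Function.update (fun _ => param) 2 Y) ↔ m ∈ Y := by
      simp [Sat, Term.teval]
    rw [← e1]
    refine h1.trans ?_
    constructor
    · intro h2 W hW
      obtain ⟨Z, hZ, hZ'⟩ := hβ Phi arithmetical_Phi 0 (Function.update (fun _ => (0 : ℕ)) 0 m)
        (Function.update (fun _ => param) 2 Y) (by
          intro i
          by_cases hi : i = 2
          · subst hi
            simpa using hY
          · rw [Function.update_of_ne hi]
            exact hP) ⟨W, by
          rw [satN_Phi]
          simpa using hW⟩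
      exact h2 Z hZ ((sat_omega arithmetical_Phi _ _).2 hZ')
    · intro h2 W hW hcon
      have h3 := (sat_omega arithmetical_Phi _ _).1 hcon
      rw [satN_Phi] at h3
      refine h2 W ?_
      simpa using h3
  rw [← hYd]
  exact hY

/-! ### `RCA_0` holds in beta-models -/

theorem arithmetical_of_bounded {φ : Formula} (h : Bounded φ) : Arithmetical φ := by
  induction h with
  | beq s t => trivial
  | blt s t => trivial
  | bmem t X => trivial
  | bneg _ ih => exact ih
  | band _ _ ih1 ih2 => exact ⟨ih1, ih2⟩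
  | ball _ _ ih => exact ⟨trivial, ih⟩
  | bex _ _ ih => exact ⟨trivial, ih⟩

theorem sat_induction (𝒮 : Set (Set ℕ)) (h : 𝒮.Nonempty) (x : ℕ) (φ : Formula) (v : ℕ → ℕ)
    (V : ℕ → Set ℕ) : Sat (omega 𝒮 h) (induction x φ) v V := by
  rw [induction, sat_imp]
  rintro ⟨h0, h1⟩ n
  have h0' := (sat_subst (omega 𝒮 h) x .tzero (fun _ _ hf => hf) φ v V).1 h0
  have h1' : ∀ m : ℕ, Sat (omega 𝒮 h) φ (Function.update v x m) V →
      Sat (omega 𝒮 h) φ (Function.update v x (m + 1)) V := by
    intro m hm
    have e := h1 m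
    rw [sat_imp] at e
    have e2 := (sat_subst (omega 𝒮 h) x (.tadd (.tvar x) .tone)
      (fun y hy hf => by
        rcases hf with hf | hf
        · exact hy hf
        · exact hf) φ _ V).1 (e hm)
    simp only [Term.teval, Function.update_idem, Function.update_self] at e2
    exact e2
  exact Nat.rec h0' (fun m hm => h1' m hm) n

theorem models_RCA0 {𝒮 : Set (Set ℕ)} (h : 𝒮.Nonempty) (hβ : Beta 𝒮) :
    Models (omega 𝒮 h) RCA0 := by
  rintro φ ((hφ | ⟨x, ψ, _, rfl⟩) | ⟨X, x, ψ, ψ', hψ, hψ', hX, rfl⟩) v V hV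
  · simp only [basic, Set.mem_insert_iff, Set.mem_singleton_iff] at hφ
    rcases hφ with rfl | rfl | rfl | rfl | rfl | rfl | rfl | rfl
    · exact Nat.succ_ne_zero _
    · rw [sat_imp]
      exact Nat.succ.inj
    · exact Nat.add_zero _
    · exact (Nat.add_assoc _ _ _).symm
    · exact Nat.mul_zero _
    · exact Nat.mul_succ _ _
    · exact Nat.not_lt_zero _
    · rw [sat_iff]
      exact (by omega : ∀ a b : ℕ, a < b + 1 ↔ ¬ (¬ a < b ∧ ¬ a = b)) (v 0) (v 1)
  · exact sat_induction _ _ _ _ _ _
  · rw [sat_imp]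
    intro _
    rw [comprehension, sat_exS]
    have har : Arithmetical ψ := by
      obtain ⟨y, θ, hθ, rfl⟩ := hψ
      exact (arithmetical_of_bounded hθ : Arithmetical θ)
    have har' : Arithmetical (.fallN x (.fiff (.fmem (.tvar x) X) ψ)) := by
      simp [Arithmetical, Formula.fiff, Formula.fimp, har]
    obtain ⟨Y, hY, hY'⟩ := hβ (.fallN x (.fiff (.fmem (.tvar x) X) ψ)) har' X v V hV
      ⟨{n | SatN ψ (Function.update v x n) V}, by
        intro n
        rw [satN_iff]
        have e : SatN (.fmem (.tvar x) X) (Function.update v x n)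
            (Function.update V X {n | SatN ψ (Function.update v x n) V}) ↔
            SatN ψ (Function.update v x n) V := by
          simp [SatN, evN]
        rw [e, ← sat_omega (h := h) har, ← sat_omega (h := h) har]
        exact (sat_update_of_not_freeS (omega 𝒮 h) ψ hX _ V).symm⟩
    exact ⟨Y, hY, (sat_omega har' _ _).2 hY'⟩

end Pool.Agent.Lib.MP_660a49_lc
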